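import Pool.Agent.Run7.h180.EM.Num
import Pool.Agent.H38.NP.Api

/-!
# The converse reduction for weights in unary
-/

set_option autoImplicit false

namespace Run7.h180.EMX

open Finset Pool.Agent.H38.NP

/-- the edges with both ends below `n` -/
def trim (n : ℕ) (E : List (ℕ × ℕ × ℕ)) : List (ℕ × ℕ × ℕ) :=
  E.filter fun e => decide (e.1 < n) && decide (e.2.1 < n)

/-- a bound for the weight of a matching -/
def bnd (n : ℕ) (E : List (ℕ × ℕ × ℕ)) : ℕ := (n + 1) * (E.map fun e => e.2.2).sum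

/-- the short edges: the edges of `E` in blue, and `q` slack pairs of parallel edges -/
def sh2 (n q : ℕ) (E : List (ℕ × ℕ × ℕ)) : List (ℕ × ℕ × Bool) :=
  ((trim n E).map fun e => (e.1, e.2.1, false)) ++
  (((List.range q).map fun i => (n + i, n + i, true)) ++
    ((List.range q).map fun i => (n + i, n + i, false)))

/-- the colours of a used path -/
def us2 (T : ℕ) : ℕ → ℕ → Bool := fun w t => decide (t < T + w)

/-- the colours of an unused path -/
def ns2 : ℕ → ℕ → Bool := fun _ _ => false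

theorem mem_trim {n : ℕ} {E : List (ℕ × ℕ × ℕ)} {u v w : ℕ} :
    (u, v, w) ∈ trim n E ↔ (u, v, w) ∈ E ∧ u < n ∧ v < n := by
  unfold trim
  simp only [List.mem_filter, Bool.and_eq_true, decide_eq_true_eq]

theorem mem_sh2 {n q : ℕ} {E : List (ℕ × ℕ × ℕ)} {u v : ℕ} {b : Bool} :
    (u, v, b) ∈ sh2 n q E ↔ (b = false ∧ ∃ w, (u, v, w) ∈ trim n E) ∨
      (n ≤ u ∧ u < n + q ∧ v = u) := by
  unfold sh2
  simp only [List.mem_append, List.mem_map, List.mem_range, Prod.exists, Prod.mk.injEq]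
  constructor
  · rintro (⟨x, y, w, h, rfl, rfl, rfl⟩ | ⟨i, h, rfl, rfl, rfl⟩ | ⟨i, h, rfl, rfl, rfl⟩)
    · exact Or.inl ⟨rfl, w, h⟩
    · exact Or.inr ⟨by omega, by omega, rfl⟩
    · exact Or.inr ⟨by omega, by omega, rfl⟩
  · rintro (⟨rfl, w, h⟩ | ⟨h1, h2, rfl⟩)
    · exact Or.inl ⟨u, v, w, h, rfl, rfl, rfl⟩
    · right
      cases b
      · exact Or.inr ⟨v - n, by omega, by omega, by omega, rfl⟩
      · exact Or.inl ⟨v - n, by omega, by omega, by omega, rfl⟩

theorem le_bnd {E : List (ℕ × ℕ × ℕ)} {u v w : ℕ} (h : (u, v, w) ∈ E) :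
    w ≤ (E.map fun e => e.2.2).sum :=
  List.single_le_sum (fun _ _ => Nat.zero_le _) _ (List.mem_map.2 ⟨(u, v, w), h, rfl⟩)

/-- a sum over the used long edges -/
theorem Src.sum {L D : Type} {n : ℕ} {short : List (ℕ × ℕ × L)} {long : List (ℕ × ℕ × D)}
    {p : ℕ → ℕ} {c : ℕ → L} {o : ℕ → Option ℕ} (h : Src n short long p c o) (g : ℕ → ℕ)
    [DecidablePred fun j => ∃ i < n, o i = some j] :
    ∑ j ∈ (range long.length).filter (fun j => ∃ i < n, o i = some j), g j =
      ∑ i ∈ (range n).filter (fun i => (o i).isSome = true), g ((o i).getD 0) := by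
  symm
  refine Finset.sum_bij (fun i _ => (o i).getD 0) ?_ ?_ ?_ ?_
  · intro i hi
    simp only [Finset.mem_filter, Finset.mem_range] at hi ⊢
    obtain ⟨j, hj⟩ := Option.isSome_iff_exists.1 hi.2
    obtain ⟨hjl, -⟩ := h.lg i hi.1 j hj
    rw [hj]
    exact ⟨hjl, i, hi.1, hj⟩
  · intro i hi i' hi' he
    simp only [Finset.mem_filter, Finset.mem_range] at hi hi'
    obtain ⟨j, hj⟩ := Option.isSome_iff_exists.1 hi.2
    obtain ⟨j', hj'⟩ := Option.isSome_iff_exists.1 hi'.2
    simp only [hj, hj', Option.getD_some] at he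
    subst he
    obtain ⟨_, h1, -⟩ := h.lg i hi.1 j hj
    obtain ⟨_, h2, -⟩ := h.lg i' hi'.1 j hj'
    rw [← h1, ← h2]
  · intro j hj
    simp only [Finset.mem_filter, Finset.mem_range] at hj
    obtain ⟨hjl, i, hi, ho⟩ := hj
    exact ⟨i, by simp [hi, ho], by simp [ho]⟩
  · intro i hi
    rfl

/-- the weight of the long edge `j` -/
def lw (n : ℕ) (E : List (ℕ × ℕ × ℕ)) (j : ℕ) : ℕ := ((trim n E).getD j (0, 0, 0)).2.2

theorem lw_eq {n : ℕ} {E : List (ℕ × ℕ × ℕ)} {j : ℕ} (hj : j < (trim n E).length) :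
    lw n E j = (trim n E)[j].2.2 := by
  unfold lw
  rw [List.getD_eq_getElem _ _ hj]

theorem lw_le {n : ℕ} {E : List (ℕ × ℕ × ℕ)} {j : ℕ} (hj : j < (trim n E).length) :
    lw n E j ≤ (E.map fun e => e.2.2).sum := by
  rw [lw_eq hj]
  have h1 : ((trim n E)[j].1, (trim n E)[j].2.1, (trim n E)[j].2.2) ∈ trim n E :=
    List.getElem_mem hj
  exact le_bnd (mem_trim.1 h1).1

theorem count_lt (a S : ℕ) (h : a ≤ S) :
    ∑ t ∈ range S, (if decide (t < a) = true then 1 else 0) = a := by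
  rw [← Finset.card_filter]
  have : (range S).filter (fun t => decide (t < a) = true) = range a := by
    ext t
    simp only [mem_filter, mem_range, decide_eq_true_eq]
    omega
  rw [this, card_range]

theorem redcount {n q B : ℕ} {E : List (ℕ × ℕ × ℕ)} (hB : B = bnd n E) {p : ℕ → ℕ}
    {c c' : ℕ → Bool} {o : ℕ → Option ℕ} (h : Src (n + q) (sh2 n q E) (trim n E) p c o)
    (hl : Lab (n + q) (2 * (B + 1)) (us2 (B + 1)) ns2 (trim n E) c o c') :
    ((range (n + q + 2 * (B + 1) * (trim n E).length)).filter fun i => c' i = true).card =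
      ((range n).filter fun i => (o i).isSome = true).card * (B + 1) +
      ∑ i ∈ (range n).filter (fun i => (o i).isSome = true), lw n E ((o i).getD 0) +
      ∑ i ∈ range q, if c (n + i) = true then 1 else 0 := by
  classical
  have hns : ∀ i, n ≤ i → i < n + q → o i = none := by
    intro i hi hi'
    rcases ho : o i with _ | j
    · rfl
    · obtain ⟨hj, h1, h2⟩ := h.lg i hi' j ho
      have h3 : ((trim n E)[j].1, (trim n E)[j].2.1, (trim n E)[j].2.2) ∈ trim n E :=
        List.getElem_mem hj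
      have := (mem_trim.1 h3).2.1
      omega
  have hwB : ∀ j, j < (trim n E).length → lw n E j ≤ B := by
    intro j hj
    refine (lw_le hj).trans ?_
    rw [hB]
    unfold bnd
    exact Nat.le_mul_of_pos_left _ (Nat.succ_pos n)
  rw [Finset.card_filter, sum_blocks (fun i => if c' i = true then 1 else 0), Finset.sum_range_add]
  have e1 : ∑ i ∈ range n, (if c' i = true then 1 else 0) =
      ((range n).filter fun i => (o i).isSome = true).card := by
    rw [Finset.card_filter]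
    refine Finset.sum_congr rfl fun i hi => ?_
    rw [mem_range] at hi
    rcases ho : o i with _ | j
    · rw [hl.sh i (by omega) ho]
      rcases mem_sh2.1 (h.sh i (by omega) ho) with ⟨h1, -⟩ | ⟨h1, -, -⟩
      · rw [h1]
        simp
      · omega
    · obtain ⟨hj, -⟩ := h.lg i (by omega) j ho
      rw [hl.lg i (by omega) j ho hj]
      simp [us2]
  have e2 : ∑ i ∈ range q, (if c' (n + i) = true then 1 else 0) =
      ∑ i ∈ range q, if c (n + i) = true then 1 else 0 := by
    refine Finset.sum_congr rfl fun i hi => ?_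
    rw [mem_range] at hi
    rw [hl.sh (n + i) (by omega) (hns _ (by omega) (by omega))]
  have e3 : ∑ j ∈ range (trim n E).length, ∑ t ∈ range (2 * (B + 1)),
      (if c' (n + q + 2 * (B + 1) * j + t) = true then 1 else 0) =
      ∑ j ∈ (range (trim n E).length).filter (fun j => ∃ i < n + q, o i = some j),
        (B + lw n E j) := by
    rw [Finset.sum_filter]
    refine Finset.sum_congr rfl fun j hj => ?_
    rw [mem_range] at hj
    split_ifs with hu
    · rw [Finset.sum_congr rfl (fun t ht => by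
        rw [hl.used j hj hu t (mem_range.1 ht), ← lw_eq hj]
        unfold us2
        rw [decide_eq_decide.2 (by omega : t + 1 < B + 1 + lw n E j ↔ t < B + lw n E j)] :
          ∀ t ∈ range (2 * (B + 1)), (if c' (n + q + 2 * (B + 1) * j + t) = true then 1 else 0) =
            if decide (t < B + lw n E j) = true then 1 else 0)]
      have := hwB j hj
      exact count_lt _ _ (by omega)
    · refine Finset.sum_eq_zero fun t ht => ?_
      rw [hl.unused j hj hu t (mem_range.1 ht)]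
      simp [ns2]
  have e4 : (range (n + q)).filter (fun i => (o i).isSome = true) =
      (range n).filter (fun i => (o i).isSome = true) := by
    ext i
    simp only [mem_filter, mem_range]
    constructor
    · rintro ⟨h1, h2⟩
      refine ⟨?_, h2⟩
      by_contra h3
      rw [hns i (by omega) h1] at h2
      simp at h2
    · rintro ⟨h1, h2⟩
      exact ⟨by omega, h2⟩
  rw [e1, e2, e3, h.sum (fun j => B + lw n E j), e4, Finset.sum_add_distrib, Finset.sum_const,
    smul_eq_mul]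
  ring

theorem sel_le {n : ℕ} {E : List (ℕ × ℕ × ℕ)} {c : ℕ → ℕ} {S : Finset ℕ} (hS : S ⊆ range n)
    (hc : ∀ i ∈ S, c i ≤ (E.map fun e => e.2.2).sum) : ∑ i ∈ S, c i ≤ bnd n E := by
  refine (Finset.sum_le_card_nsmul _ _ _ hc).trans ?_
  rw [smul_eq_mul]
  unfold bnd
  have := Finset.card_le_card hS
  rw [card_range] at this
  exact Nat.mul_le_mul_right _ (by omega)

theorem conv_no {n k W : ℕ} {E : List (ℕ × ℕ × ℕ)} (hW : bnd n E < W) : ¬ HasExt n k W E := by
  rintro ⟨p, c, hpm, S, hS, -, hle⟩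
  have := sel_le (E := E) (c := c) hS
    (fun i hi => le_bnd (hpm.1 i (mem_range.1 (hS hi))))
  omega

theorem conv_fwd {n k W : ℕ} {E : List (ℕ × ℕ × ℕ)} (h : HasExt n k W E)
    (hW : W ≤ bnd n E) :
    HasExact (n + (bnd n E - W) + 2 * (bnd n E + 1) * (trim n E).length)
      (k * (bnd n E + 1) + bnd n E)
      (big (n + (bnd n E - W)) (2 * (bnd n E + 1)) (us2 (bnd n E + 1)) ns2
        (sh2 n (bnd n E - W) E) (trim n E)) := by
  classical
  obtain ⟨p, c, ⟨hE, hlt, hinj⟩, S, hS, hc, hle⟩ := h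
  have hXB : ∑ i ∈ S, c i ≤ bnd n E :=
    sel_le (E := E) (c := c) hS (fun i hi => le_bnd (hE i (mem_range.1 (hS hi))))
  obtain ⟨B, hB⟩ : ∃ B, B = bnd n E := ⟨_, rfl⟩
  rw [← hB] at hXB hW ⊢
  obtain ⟨q, hq⟩ : ∃ q, q = B - W := ⟨_, rfl⟩
  rw [← hq]
  have hj : ∀ i ∈ S, ∃ j, ∃ hj : j < (trim n E).length, (trim n E)[j] = (i, p i, c i) := by
    intro i hi
    have hin := mem_range.1 (hS hi)
    obtain ⟨j, hj, h2⟩ := List.getElem_of_mem (mem_trim.2 ⟨hE i hin, hin, hlt i hin⟩)
    exact ⟨j, hj, h2⟩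
  let o : ℕ → Option ℕ := fun i => if h : i ∈ S then some (hj i h).choose else none
  have ho : ∀ i, (o i).isSome = true ↔ i ∈ S := by
    intro i
    by_cases h : i ∈ S
    · simp only [o, dif_pos h, Option.isSome_some, h]
    · simp only [o, dif_neg h, h]
      simp
  have hlw : ∀ i ∈ S, lw n E ((o i).getD 0) = c i := by
    intro i h
    obtain ⟨h1, h2⟩ := (hj i h).choose_spec
    simp only [o, dif_pos h, Option.getD_some]
    rw [lw_eq h1, h2]
  let s : ℕ := B - ∑ i ∈ S, c i
  let p0 : ℕ → ℕ := fun i => if i < n then p i else i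
  let c0 : ℕ → Bool := fun i => decide (n ≤ i) && decide (i - n < s)
  have hsrc : Src (n + q) (sh2 n q E) (trim n E) p0 c0 o := by
    refine ⟨?_, ?_, ?_, ?_⟩
    · intro i hi
      simp only [p0]
      split_ifs with h1
      · exact (hlt i h1).trans_le (Nat.le_add_right _ _)
      · exact hi
    · intro i hi j hj hij
      simp only [p0] at hij
      split_ifs at hij with h1 h2 h2
      · exact hinj i h1 j h2 hij
      · have := hlt i h1
        omega
      · have := hlt j h2
        omega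
      · exact hij
    · intro i hi hoi
      rw [mem_sh2]
      by_cases h1 : i < n
      · left
        refine ⟨?_, c i, ?_⟩
        · have : ¬ n ≤ i := by omega
          simp only [c0, this, decide_false, Bool.false_and]
        · simp only [p0, if_pos h1]
          exact mem_trim.2 ⟨hE i h1, h1, hlt i h1⟩
      · right
        refine ⟨by omega, hi, ?_⟩
        simp only [p0, if_neg h1]
    · intro i hi j hoi
      have h1 : i ∈ S := (ho i).1 (by rw [hoi]; rfl)
      obtain ⟨h2, h3⟩ := (hj i h1).choose_spec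
      simp only [o, dif_pos h1, Option.some.injEq] at hoi
      subst hoi
      have h4 : i < n := mem_range.1 (hS h1)
      refine ⟨h2, by rw [h3], ?_⟩
      rw [h3]
      simp only [p0, if_pos h4]
  obtain ⟨p', c', hpm, hl⟩ := forward (S := 2 * (B + 1)) (us := us2 (B + 1)) (ns := ns2)
    (by omega) hsrc
  refine ⟨p', c', hpm, ?_⟩
  rw [redcount hB hsrc hl]
  have h1 : (range n).filter (fun i => (o i).isSome = true) = S := by
    ext i
    simp only [mem_filter, mem_range]
    rw [ho i]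
    exact ⟨fun h => h.2, fun h => ⟨mem_range.1 (hS h), h⟩⟩
  rw [h1, hc, Finset.sum_congr rfl hlw]
  have h2 : ∑ i ∈ range q, (if c0 (n + i) = true then 1 else 0) = s := by
    rw [Finset.sum_congr rfl (fun i _ => by
      have h3 : n ≤ n + i := Nat.le_add_right _ _
      simp only [c0, h3, decide_true, Bool.true_and, Nat.add_sub_cancel_left] :
        ∀ i ∈ range q, (if c0 (n + i) = true then 1 else 0) =
          if decide (i < s) = true then 1 else 0)]
    exact count_lt _ _ (by simp only [s]; omega)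
  rw [h2]
  show k * (B + 1) + ∑ i ∈ S, c i + (B - ∑ i ∈ S, c i) = k * (B + 1) + B
  omega

theorem conv_bwd {n k W : ℕ} {E : List (ℕ × ℕ × ℕ)} (hW : W ≤ bnd n E)
    (h : HasExact (n + (bnd n E - W) + 2 * (bnd n E + 1) * (trim n E).length)
      (k * (bnd n E + 1) + bnd n E)
      (big (n + (bnd n E - W)) (2 * (bnd n E + 1)) (us2 (bnd n E + 1)) ns2
        (sh2 n (bnd n E - W) E) (trim n E))) : HasExt n k W E := by
  classical
  obtain ⟨B, hB⟩ : ∃ B, B = bnd n E := ⟨_, rfl⟩
  rw [← hB] at h hW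
  obtain ⟨q, hq⟩ : ∃ q, q = B - W := ⟨_, rfl⟩
  rw [← hq] at h
  obtain ⟨p', c', hpm, hcount⟩ := h
  obtain ⟨p, o, hsrc, hl⟩ := backward (S := 2 * (B + 1)) (us := us2 (B + 1)) (ns := ns2)
    (by omega)
    (fun e he => by
      obtain ⟨u, v, b⟩ := e
      rcases mem_sh2.1 he with ⟨-, w, h1⟩ | ⟨h1, h2, h3⟩
      · have := (mem_trim.1 h1).2
        exact ⟨by simp only; omega, by simp only; omega⟩
      · exact ⟨by simp only; omega, by simp only; omega⟩)
    (fun e he => by
      obtain ⟨u, v, w⟩ := e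
      have := (mem_trim.1 he).2
      exact ⟨by simp only; omega, by simp only; omega⟩) hpm
  rw [redcount hB hsrc hl] at hcount
  -- the matching in the source graph
  have hex : ∀ i < n, ∃ w, (i, p i, w) ∈ trim n E ∧ ∀ j, o i = some j → w = lw n E j := by
    intro i hi
    rcases ho : o i with _ | j
    · rcases mem_sh2.1 (hsrc.sh i (by omega) ho) with ⟨-, w, h1⟩ | ⟨h1, -, -⟩
      · exact ⟨w, h1, fun j hj => absurd hj (by simp)⟩
      · omega
    · obtain ⟨hj, h1, h2⟩ := hsrc.lg i (by omega) j ho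
      refine ⟨lw n E j, ?_, fun j' hj' => by rw [Option.some.inj hj']⟩
      rw [lw_eq hj]
      have h3 : (trim n E)[j] ∈ trim n E := List.getElem_mem hj
      have h4 : (trim n E)[j] = (i, p i, (trim n E)[j].2.2) := Prod.ext h1 (Prod.ext h2 rfl)
      rw [h4] at h3
      exact h3
  choose! w hw hwj using hex
  have hX : ∑ i ∈ (range n).filter (fun i => (o i).isSome = true), lw n E ((o i).getD 0) =
      ∑ i ∈ (range n).filter (fun i => (o i).isSome = true), w i := by
    refine Finset.sum_congr rfl fun i hi => ?_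
    simp only [mem_filter, mem_range] at hi
    obtain ⟨j, hj⟩ := Option.isSome_iff_exists.1 hi.2
    rw [hj, Option.getD_some, hwj i hi.1 j hj]
  have hXB : ∑ i ∈ (range n).filter (fun i => (o i).isSome = true), w i ≤ B := by
    rw [hB]
    refine sel_le (Finset.filter_subset _ _) fun i hi => ?_
    simp only [mem_filter, mem_range] at hi
    exact le_bnd (mem_trim.1 (hw i hi.1)).1
  have hY : ∑ i ∈ range q, (if c' (n + i) = true then 1 else 0) ≤ q := by
    refine (Finset.sum_le_card_nsmul _ _ 1 fun i _ => ?_).trans ?_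
    · split_ifs <;> omega
    · rw [card_range, smul_eq_mul, mul_one]
  rw [hX] at hcount
  have hcard : ((range n).filter fun i => (o i).isSome = true).card = k := by
    by_contra hne
    rcases Nat.lt_or_gt_of_ne hne with h1 | h1
    · have h2 : (((range n).filter fun i => (o i).isSome = true).card + 1) * (B + 1) ≤
          k * (B + 1) := Nat.mul_le_mul_right _ h1
      rw [Nat.succ_mul] at h2
      omega
    · have h2 : (k + 1) * (B + 1) ≤
          ((range n).filter fun i => (o i).isSome = true).card * (B + 1) :=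
        Nat.mul_le_mul_right _ h1
      rw [Nat.succ_mul] at h2
      omega
  refine ⟨p, w, ⟨fun i hi => (mem_trim.1 (hw i hi)).1, fun i hi => (mem_trim.1 (hw i hi)).2.2,
    fun i hi j hj hij => hsrc.inj i (by omega) j (by omega) hij⟩,
    (range n).filter (fun i => (o i).isSome = true), Finset.filter_subset _ _, hcard, ?_⟩
  rw [hcard] at hcount
  omega

/-- the instance of the exact matching problem of the reduction -/
def conv (b : ℕ × ℕ × ℕ × List (ℕ × ℕ × ℕ)) : ℕ × ℕ × List (ℕ × ℕ × Bool) :=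
  if b.2.2.1 ≤ bnd b.1 b.2.2.2 then
    (b.1 + (bnd b.1 b.2.2.2 - b.2.2.1) +
        2 * (bnd b.1 b.2.2.2 + 1) * (trim b.1 b.2.2.2).length,
      b.2.1 * (bnd b.1 b.2.2.2 + 1) + bnd b.1 b.2.2.2,
      big (b.1 + (bnd b.1 b.2.2.2 - b.2.2.1)) (2 * (bnd b.1 b.2.2.2 + 1))
        (us2 (bnd b.1 b.2.2.2 + 1)) ns2 (sh2 b.1 (bnd b.1 b.2.2.2 - b.2.2.1) b.2.2.2)
        (trim b.1 b.2.2.2))
  else (0, 1, [])

theorem conv_iff (b : ℕ × ℕ × ℕ × List (ℕ × ℕ × ℕ)) :
    HasExt b.1 b.2.1 b.2.2.1 b.2.2.2 ↔ HasExact (conv b).1 (conv b).2.1 (conv b).2.2 := by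
  unfold conv
  split_ifs with h
  · exact ⟨fun h1 => conv_fwd h1 h, conv_bwd h⟩
  · constructor
    · intro h1
      exact absurd h1 (conv_no (by omega))
    · rintro ⟨p, c, -, h1⟩
      simp at h1

theorem pt_trim : PT fun b : ℕ × ℕ × ℕ × List (ℕ × ℕ × ℕ) => trim b.1 b.2.2.2 := by
  unfold trim
  fun_prop

theorem pt_bnd : PT fun b : ℕ × ℕ × ℕ × List (ℕ × ℕ × ℕ) => bnd b.1 b.2.2.2 := by
  unfold bnd
  fun_prop

theorem pt_sh2 : PT fun b : ℕ × ℕ × ℕ × List (ℕ × ℕ × ℕ) =>
    sh2 b.1 (bnd b.1 b.2.2.2 - b.2.2.1) b.2.2.2 := by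
  unfold sh2
  have h1 := pt_trim
  have h2 := pt_bnd
  fun_prop

theorem pt_gad2 : PT fun q : ℕ × ℕ × ℕ × (ℕ × ℕ × ℕ) =>
    gad q.1 (us2 q.2.1) ns2 q.2.2.1 q.2.2.2 := by
  unfold gad us2 ns2
  fun_prop

theorem pt_big2 : PT fun b : ℕ × ℕ × ℕ × List (ℕ × ℕ × ℕ) =>
    big (b.1 + (bnd b.1 b.2.2.2 - b.2.2.1)) (2 * (bnd b.1 b.2.2.2 + 1))
        (us2 (bnd b.1 b.2.2.2 + 1)) ns2 (sh2 b.1 (bnd b.1 b.2.2.2 - b.2.2.1) b.2.2.2)
        (trim b.1 b.2.2.2) := by
  unfold big
  have h1 := pt_trim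
  have h2 := pt_bnd
  have h3 := pt_sh2
  have h4 : PT fun q : (ℕ × ℕ × ℕ × List (ℕ × ℕ × ℕ)) × ((ℕ × ℕ × ℕ) × ℕ) =>
      gad (2 * (bnd q.1.1 q.1.2.2.2 + 1)) (us2 (bnd q.1.1 q.1.2.2.2 + 1)) ns2
        (q.1.1 + (bnd q.1.1 q.1.2.2.2 - q.1.2.2.1) + 2 * (bnd q.1.1 q.1.2.2.2 + 1) * q.2.2)
        q.2.1 :=
    pt_gad2.comp (g := fun q : (ℕ × ℕ × ℕ × List (ℕ × ℕ × ℕ)) × ((ℕ × ℕ × ℕ) × ℕ) =>
      (2 * (bnd q.1.1 q.1.2.2.2 + 1), bnd q.1.1 q.1.2.2.2 + 1,
        q.1.1 + (bnd q.1.1 q.1.2.2.2 - q.1.2.2.1) + 2 * (bnd q.1.1 q.1.2.2.2 + 1) * q.2.2,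
        q.2.1)) (by
      have h5 : PT fun q : (ℕ × ℕ × ℕ × List (ℕ × ℕ × ℕ)) × ((ℕ × ℕ × ℕ) × ℕ) =>
        bnd q.1.1 q.1.2.2.2 := h2.comp (PT.fst PT.id')
      fun_prop)
  fun_prop

theorem pt_conv : PT conv := by
  unfold conv
  have h1 := pt_trim
  have h2 := pt_bnd
  have h3 := pt_big2
  fun_prop

end Run7.h180.EMX
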