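import Pool.Agent.Run7.h180.EM.Num
import Pool.Agent.H38.NP.Api

/-!
# The reduction is computed in polynomial time
-/

set_option autoImplicit false

namespace Run7.h180.EMX

open Finset Pool.Agent.H38.NP

/-- the instance `(N, K, edges)` of the reduction -/
def reInst (a : ℕ × ℕ × List (ℕ × ℕ × Bool)) : ℕ × ℕ × List (ℕ × ℕ × ℕ) :=
  if a.2.1 ≤ (red a.1 a.2.2).length then
    (a.1 + 3 * (red a.1 a.2.2).length, (red a.1 a.2.2).length + a.1 + 2 * a.2.1, tgt a.1 a.2.2)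
  else (0, 0, [])

/-- the threshold of the reduction -/
def thr (a : ℕ × ℕ × List (ℕ × ℕ × Bool)) : ℕ :=
  if a.2.1 ≤ (red a.1 a.2.2).length then
    10 * (red a.1 a.2.2).length + 9 * a.1 + 17 * a.2.1
  else 1

theorem pt_red : PT fun a : ℕ × ℕ × List (ℕ × ℕ × Bool) => red a.1 a.2.2 := by
  unfold red
  fun_prop

theorem pt_blue : PT fun a : ℕ × ℕ × List (ℕ × ℕ × Bool) => blue a.1 a.2.2 := by
  unfold blue
  fun_prop

theorem pt_gad : PT fun q : ℕ × (ℕ × ℕ × Unit) => gad 3 uw nw q.1 q.2 := by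
  unfold gad uw nw
  fun_prop

theorem pt_tgt : PT fun a : ℕ × ℕ × List (ℕ × ℕ × Bool) => tgt a.1 a.2.2 := by
  unfold tgt big
  have h1 := pt_red
  have h2 := pt_blue
  have h3 : PT fun q : (ℕ × ℕ × List (ℕ × ℕ × Bool)) × ((ℕ × ℕ × Unit) × ℕ) =>
      gad 3 uw nw (q.1.1 + 3 * q.2.2) q.2.1 :=
    pt_gad.comp (g := fun q : (ℕ × ℕ × List (ℕ × ℕ × Bool)) × ((ℕ × ℕ × Unit) × ℕ) =>
      (q.1.1 + 3 * q.2.2, q.2.1)) (by fun_prop)
  fun_prop

theorem pt_reInst : PT reInst := by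
  unfold reInst
  have h1 := pt_red
  have h2 := pt_tgt
  fun_prop

theorem pt_thr : PT thr := by
  unfold thr
  have h1 := pt_red
  fun_prop

end Run7.h180.EMX
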