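import Pool.Agent.Run7.h180.EM.Gen

/-!
# The reduction with three arbitrary weights is computed in polynomial time
-/

set_option autoImplicit false

namespace Run7.h180.EMX

open Finset Pool.Agent.H38.NP

/-- the instance `(N, K, edges)` of the reduction -/
def gInst (lo A β : ℕ) (a : ℕ × ℕ × List (ℕ × ℕ × Bool)) : ℕ × ℕ × List (ℕ × ℕ × ℕ) :=
  if a.2.1 ≤ (red a.1 a.2.2).length then
    (a.1 + (β + 2) * (red a.1 a.2.2).length, (red a.1 a.2.2).length + a.1 + (β + 1) * a.2.1,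
      tg lo A β a.1 a.2.2)
  else (0, 0, [])

/-- the threshold of the reduction -/
def gThr (lo A β : ℕ) (a : ℕ × ℕ × List (ℕ × ℕ × Bool)) : ℕ :=
  if a.2.1 ≤ (red a.1 a.2.2).length then
    a.1 * (lo + A + 1) + (red a.1 a.2.2).length * (lo + A + 1 + β) +
      a.2.1 * ((β + 1) * (lo + A) + 1)
  else 1

theorem pt_redG : PT fun a : ℕ × ℕ × List (ℕ × ℕ × Bool) => red a.1 a.2.2 := by
  unfold red
  fun_prop

theorem pt_bl (mi : ℕ) : PT fun a : ℕ × ℕ × List (ℕ × ℕ × Bool) => bl mi a.1 a.2.2 := by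
  unfold bl
  fun_prop

theorem pt_gadG (S mi lo hi : ℕ) :
    PT fun q : ℕ × (ℕ × ℕ × Unit) => gad S (ug mi) (ng lo hi) q.1 q.2 := by
  unfold gad ug ng
  fun_prop

theorem pt_tg (lo A β : ℕ) :
    PT fun a : ℕ × ℕ × List (ℕ × ℕ × Bool) => tg lo A β a.1 a.2.2 := by
  unfold tg big
  have h1 := pt_redG
  have h2 := pt_bl (lo + A + 1)
  have h3 : PT fun q : (ℕ × ℕ × List (ℕ × ℕ × Bool)) × ((ℕ × ℕ × Unit) × ℕ) =>
      gad (β + 2) (ug (lo + A + 1)) (ng lo (lo + A + 1 + β)) (q.1.1 + (β + 2) * q.2.2) q.2.1 :=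
    (pt_gadG (β + 2) (lo + A + 1) lo (lo + A + 1 + β)).comp
      (g := fun q : (ℕ × ℕ × List (ℕ × ℕ × Bool)) × ((ℕ × ℕ × Unit) × ℕ) =>
        (q.1.1 + (β + 2) * q.2.2, q.2.1)) (by fun_prop)
  fun_prop

theorem pt_gInst (lo A β : ℕ) : PT (gInst lo A β) := by
  unfold gInst
  have h1 := pt_redG
  have h2 := pt_tg lo A β
  fun_prop

theorem pt_gThr (lo A β : ℕ) : PT (gThr lo A β) := by
  unfold gThr
  have h1 := pt_redG
  fun_prop

theorem gInst_valid (lo A β : ℕ) (a : ℕ × ℕ × List (ℕ × ℕ × Bool)) : Valid (gInst lo A β a) := by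
  unfold gInst Valid
  split_ifs with hk
  · have hs : ∀ e ∈ bl (lo + A + 1) a.1 a.2.2, e.1 < a.1 ∧ e.2.1 < a.1 := by
      rintro ⟨u, v, w⟩ he
      exact ⟨(mem_bl.1 he).2.1, (mem_bl.1 he).2.2.1⟩
    have hl : ∀ e ∈ red a.1 a.2.2, e.1 < a.1 ∧ e.2.1 < a.1 := by
      rintro ⟨u, v, w⟩ he
      exact (mem_red.1 he).2
    refine ⟨?_, big_lt (by omega) hs hl, big_simple (by omega) hs hl ?_⟩
    · simp only
      have h1 : (β + 1) * a.2.1 ≤ (β + 1) * (red a.1 a.2.2).length := Nat.mul_le_mul_left _ hk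
      have h2 : (β + 2) * (red a.1 a.2.2).length =
          (β + 1) * (red a.1 a.2.2).length + (red a.1 a.2.2).length := by ring
      omega
    · rintro ⟨u, v, w⟩ he ⟨u', v', w'⟩ he' h1 h2
      simp only at h1 h2
      rw [h1, h2, (mem_bl.1 he).2.2.2, (mem_bl.1 he').2.2.2]
  · exact ⟨by simp, by simp, by simp⟩

theorem gInst_weights (lo A β : ℕ) (a : ℕ × ℕ × List (ℕ × ℕ × Bool)) :
    ∀ e ∈ (gInst lo A β a).2.2,
      e.2.2 = lo ∨ e.2.2 = lo + A + 1 ∨ e.2.2 = lo + A + 1 + β := by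
  unfold gInst
  split_ifs with hk
  · rintro ⟨x, y, l⟩ he
    simp only at he ⊢
    unfold tg at he
    rcases mem_big.1 he with h | ⟨j, hj, h⟩
    · exact Or.inr (Or.inl (mem_bl.1 h).2.2.2)
    · rcases h with ⟨-, -, rfl⟩ | ⟨t, ht, -, -, rfl⟩ | ⟨t, ht, -, -, rfl⟩
      · exact Or.inr (Or.inl rfl)
      · exact Or.inr (Or.inl rfl)
      · by_cases h0 : t = 0
        · exact Or.inr (Or.inr (by simp [ng, h0]))
        · exact Or.inl (by simp [ng, h0])
  · simp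

theorem gInst_iff (lo A β : ℕ) (hβ : 1 ≤ β) (a : ℕ × ℕ × List (ℕ × ℕ × Bool)) :
    HasExact a.1 a.2.1 a.2.2 ↔
      HasExt (gInst lo A β a).1 (gInst lo A β a).2.1 (gThr lo A β a) (gInst lo A β a).2.2 := by
  unfold gInst gThr
  split_ifs with hk
  · exact main_iffG hβ
  · rw [main_iffG (lo := lo) (A := A) hβ]
    constructor
    · rintro ⟨p, c, -, S, hS, hc, -⟩
      have h1 := Finset.card_le_card hS
      rw [hc, card_range] at h1
      have h2 : (β + 1) * ((red a.1 a.2.2).length + 1) ≤ (β + 1) * a.2.1 :=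
        Nat.mul_le_mul_left _ (by omega)
      have h3 : (β + 2) * (red a.1 a.2.2).length =
          (β + 1) * (red a.1 a.2.2).length + (red a.1 a.2.2).length := by ring
      rw [Nat.mul_succ] at h2
      omega
    · rintro ⟨p, c, -, S, hS, hc, hW⟩
      rw [Finset.card_eq_zero.1 hc] at hW
      simp at hW

end Run7.h180.EMX
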