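import Mathlib

/-!
# Replacing edges of a bipartite graph by long paths

A bipartite graph has the left vertices `0, …, n-1`, the right vertices `0, …, n-1` and a list of
labelled edges. Every long edge is replaced by a path with `S` new left and `S` new right vertices.
-/

set_option autoImplicit false

namespace Run7.h180.EMX

variable {L D : Type}

/-- `(p, c)` is a perfect matching: the left vertex `i` is matched to the right vertex `p i` by an
edge with the label `c i` -/
def IsPM (n : ℕ) (E : List (ℕ × ℕ × L)) (p : ℕ → ℕ) (c : ℕ → L) : Prop :=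
  (∀ i < n, (i, p i, c i) ∈ E) ∧ (∀ i < n, p i < n) ∧ ∀ i < n, ∀ j < n, p i = p j → i = j

theorem IsPM.surj {n : ℕ} {E : List (ℕ × ℕ × L)} {p : ℕ → ℕ} {c : ℕ → L} (h : IsPM n E p c) :
    ∀ y < n, ∃ x < n, p x = y := by
  intro y hy
  let g : Fin n → Fin n := fun i => ⟨p i, h.2.1 i i.2⟩
  have hg : Function.Injective g := by
    intro a b hab
    exact Fin.ext (h.2.2 a a.2 b b.2 (congrArg Fin.val hab))
  obtain ⟨x, hx⟩ := (Finite.injective_iff_surjective.1 hg) ⟨y, hy⟩
  exact ⟨x, x.2, congrArg Fin.val hx⟩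

/-- the path which replaces a long edge `e`, its new vertices are `b, …, b + S - 1` on both sides -/
def gad (S : ℕ) (us ns : D → ℕ → L) (b : ℕ) (e : ℕ × ℕ × D) : List (ℕ × ℕ × L) :=
  (e.1, b, us e.2.2 0) ::
    ((List.range S).map fun t => (b + t, if t + 1 = S then e.2.1 else b + t + 1, us e.2.2 (t + 1))) ++
    (List.range S).map fun t => (b + t, b + t, ns e.2.2 t)

/-- the graph in which the long edges are replaced by paths -/
def big (n S : ℕ) (us ns : D → ℕ → L) (short : List (ℕ × ℕ × L)) (long : List (ℕ × ℕ × D)) :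
    List (ℕ × ℕ × L) :=
  short ++ long.zipIdx.flatMap fun x => gad S us ns (n + S * x.2) x.1

theorem mem_big {n S : ℕ} {us ns : D → ℕ → L} {short : List (ℕ × ℕ × L)}
    {long : List (ℕ × ℕ × D)} {x y : ℕ} {l : L} :
    (x, y, l) ∈ big n S us ns short long ↔ (x, y, l) ∈ short ∨
      ∃ j, ∃ hj : j < long.length,
        (x = long[j].1 ∧ y = n + S * j ∧ l = us long[j].2.2 0) ∨
        (∃ t < S, x = n + S * j + t ∧ y = (if t + 1 = S then long[j].2.1 else n + S * j + t + 1) ∧
          l = us long[j].2.2 (t + 1)) ∨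
        ∃ t < S, x = n + S * j + t ∧ y = n + S * j + t ∧ l = ns long[j].2.2 t := by
  unfold big gad
  simp only [List.mem_append, List.mem_flatMap, List.mem_cons, List.mem_map, List.mem_range,
    Prod.mk.injEq, Prod.exists, List.mem_zipIdx_iff_getElem?]
  constructor
  · rintro (h | ⟨u, v, d, j, hj, h⟩)
    · exact Or.inl h
    · right
      obtain ⟨hj', hje⟩ := List.getElem?_eq_some_iff.1 hj
      refine ⟨j, hj', ?_⟩
      rw [hje]
      rcases h with (⟨h1, h2, h3⟩ | ⟨t, ht, h1, h2, h3⟩) | ⟨t, ht, h1, h2, h3⟩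
      · exact Or.inl ⟨h1, h2, h3⟩
      · exact Or.inr (Or.inl ⟨t, ht, h1.symm, h2.symm, h3.symm⟩)
      · exact Or.inr (Or.inr ⟨t, ht, h1.symm, h2.symm, h3.symm⟩)
  · rintro (h | ⟨j, hj, h⟩)
    · exact Or.inl h
    · right
      refine ⟨long[j].1, long[j].2.1, long[j].2.2, j, by rw [List.getElem?_eq_getElem hj], ?_⟩
      rcases h with ⟨h1, h2, h3⟩ | ⟨t, ht, h1, h2, h3⟩ | ⟨t, ht, h1, h2, h3⟩
      · exact Or.inl (Or.inl ⟨h1, h2, h3⟩)
      · exact Or.inl (Or.inr ⟨t, ht, h1.symm, h2.symm, h3.symm⟩)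
      · exact Or.inr ⟨t, ht, h1.symm, h2.symm, h3.symm⟩

/-- the division of `S * j + t` by `S` -/
theorem idx_inj {S j j' t t' : ℕ} (ht : t < S) (ht' : t' < S) (h : S * j + t = S * j' + t') :
    j = j' ∧ t = t' := by
  have h1 : (S * j + t) / S = j := by
    rw [Nat.mul_add_div (by omega), Nat.div_eq_of_lt ht, add_zero]
  have h2 : (S * j' + t') / S = j' := by
    rw [Nat.mul_add_div (by omega), Nat.div_eq_of_lt ht', add_zero]
  have h3 : j = j' := by rw [← h1, ← h2, h]
  subst h3
  exact ⟨rfl, by omega⟩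

theorem idx_lt {n S j t m : ℕ} (ht : t < S) (hj : j < m) : n + S * j + t < n + S * m := by
  have : S * (j + 1) ≤ S * m := Nat.mul_le_mul_left S hj
  rw [Nat.mul_succ] at this
  omega

/-- a matching of the short and long edges: `o i` is the number of the long edge at `i`, if any -/
structure Src (n : ℕ) (short : List (ℕ × ℕ × L)) (long : List (ℕ × ℕ × D)) (p : ℕ → ℕ)
    (c : ℕ → L) (o : ℕ → Option ℕ) : Prop where
  lt : ∀ i < n, p i < n
  inj : ∀ i < n, ∀ j < n, p i = p j → i = j
  sh : ∀ i < n, o i = none → (i, p i, c i) ∈ short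
  lg : ∀ i < n, ∀ j, o i = some j → ∃ hj : j < long.length, long[j].1 = i ∧ long[j].2.1 = p i

/-- the labels of a perfect matching of the big graph which belongs to a source matching -/
structure Lab (n S : ℕ) (us ns : D → ℕ → L) (long : List (ℕ × ℕ × D)) (c : ℕ → L)
    (o : ℕ → Option ℕ) (c' : ℕ → L) : Prop where
  sh : ∀ i < n, o i = none → c' i = c i
  lg : ∀ i < n, ∀ j, o i = some j → ∀ hj : j < long.length, c' i = us long[j].2.2 0
  used : ∀ j, ∀ hj : j < long.length, (∃ i < n, o i = some j) → ∀ t < S,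
    c' (n + S * j + t) = us long[j].2.2 (t + 1)
  unused : ∀ j, ∀ hj : j < long.length, (¬ ∃ i < n, o i = some j) → ∀ t < S,
    c' (n + S * j + t) = ns long[j].2.2 t

theorem backward {n S : ℕ} {us ns : D → ℕ → L} {short : List (ℕ × ℕ × L)}
    {long : List (ℕ × ℕ × D)} (hS : 1 ≤ S) (hs : ∀ e ∈ short, e.1 < n ∧ e.2.1 < n)
    (hl : ∀ e ∈ long, e.1 < n ∧ e.2.1 < n) {p' : ℕ → ℕ} {c' : ℕ → L}
    (h : IsPM (n + S * long.length) (big n S us ns short long) p' c') :
    ∃ p o, Src n short long p c' o ∧ Lab n S us ns long c' o c' := by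
  classical
  obtain ⟨hE, hlt, hinj⟩ := h
  have hsurj := IsPM.surj ⟨hE, hlt, hinj⟩
  have hn : n ≤ n + S * long.length := Nat.le_add_right _ _
  have hlj : ∀ j, ∀ hj : j < long.length, long[j].1 < n ∧ long[j].2.1 < n := fun j hj =>
    hl _ (List.getElem_mem hj)
  -- the edges at a new left vertex
  have hA : ∀ j, ∀ hj : j < long.length, ∀ t < S,
      (p' (n + S * j + t) = (if t + 1 = S then long[j].2.1 else n + S * j + t + 1) ∧
        c' (n + S * j + t) = us long[j].2.2 (t + 1)) ∨
      (p' (n + S * j + t) = n + S * j + t ∧ c' (n + S * j + t) = ns long[j].2.2 t) := by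
    intro j hj t ht
    rcases mem_big.1 (hE _ (idx_lt ht hj)) with h1 | ⟨j', hj', h1⟩
    · have := (hs _ h1).1
      simp only at this
      omega
    · rcases h1 with ⟨h2, -, -⟩ | ⟨t', ht', h2, h3, h4⟩ | ⟨t', ht', h2, h3, h4⟩
      · have := (hlj j' hj').1
        omega
      · obtain ⟨rfl, rfl⟩ := idx_inj ht ht' (by omega : S * j + t = S * j' + t')
        exact Or.inl ⟨h3, h4⟩
      · obtain ⟨rfl, rfl⟩ := idx_inj ht ht' (by omega : S * j + t = S * j' + t')
        exact Or.inr ⟨h3, h4⟩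
  -- the edges at a new right vertex
  have hB : ∀ j, ∀ hj : j < long.length, ∀ t < S, ∀ x < n + S * long.length,
      p' x = n + S * j + t →
      (t = 0 ∧ x = long[j].1 ∧ c' x = us long[j].2.2 0) ∨ (0 < t ∧ x = n + S * j + (t - 1)) ∨
        x = n + S * j + t := by
    intro j hj t ht x hx hpx
    rcases mem_big.1 (hE x hx) with h1 | ⟨j', hj', h1⟩
    · have := (hs _ h1).2
      simp only at this
      omega
    · rcases h1 with ⟨h2, h3, h4⟩ | ⟨t', ht', h2, h3, h4⟩ | ⟨t', ht', h2, h3, h4⟩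
      · obtain ⟨rfl, rfl⟩ := idx_inj ht (by omega : 0 < S) (by omega : S * j + t = S * j' + 0)
        exact Or.inl ⟨rfl, h2, h4⟩
      · split_ifs at h3 with h5
        · have := (hlj j' hj').2
          omega
        · obtain ⟨rfl, h6⟩ := idx_inj ht (by omega : t' + 1 < S)
            (by omega : S * j + t = S * j' + (t' + 1))
          exact Or.inr (Or.inl ⟨by omega, by omega⟩)
      · obtain ⟨rfl, rfl⟩ := idx_inj ht ht' (by omega : S * j + t = S * j' + t')
        exact Or.inr (Or.inr h2)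
  -- all or nothing
  have hup : ∀ j, ∀ hj : j < long.length, p' (n + S * j + 0) ≠ n + S * j + 0 → ∀ t < S,
      p' (n + S * j + t) ≠ n + S * j + t := by
    intro j hj h0 t
    induction t with
    | zero => intro _; exact h0
    | succ t ih =>
      intro ht h1
      have h2 := ih (by omega)
      rcases hA j hj t (by omega) with ⟨h3, -⟩ | ⟨h3, -⟩
      · rw [if_neg (by omega)] at h3
        have := hinj _ (idx_lt (by omega) hj) _ (idx_lt ht hj) (h3.trans (by rw [h1]; ring))
        omega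
      · exact h2 h3
  have hdown : ∀ j, ∀ hj : j < long.length, p' (n + S * j + 0) = n + S * j + 0 → ∀ t < S,
      p' (n + S * j + t) = n + S * j + t := by
    intro j hj h0 t
    induction t with
    | zero => intro _; exact h0
    | succ t ih =>
      intro ht
      have h2 := ih (by omega)
      obtain ⟨x, hx, hpx⟩ := hsurj (n + S * j + (t + 1)) (idx_lt ht hj)
      rcases hB j hj (t + 1) ht x hx hpx with ⟨h3, -, -⟩ | ⟨-, h3⟩ | h3
      · omega
      · rw [h3, Nat.add_sub_cancel] at hpx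
        omega
      · rw [← h3]
        rw [h3]
        exact h3 ▸ hpx
  -- the source matching
  let W : ℕ → ℕ → Prop := fun i j => j < long.length ∧ p' i = n + S * j + 0
  have hWuse : ∀ i < n, ∀ j, W i j → ∃ hj : j < long.length, long[j].1 = i ∧
      c' i = us long[j].2.2 0 ∧ p' (n + S * j + 0) ≠ n + S * j + 0 := by
    intro i hi j hW
    refine ⟨hW.1, ?_⟩
    rcases hB j hW.1 0 (by omega) i (by omega) hW.2 with ⟨-, h3, h4⟩ | ⟨h3, -⟩ | h3
    · refine ⟨h3.symm, h4, fun h5 => ?_⟩
      have := hinj _ (idx_lt (by omega) hW.1) i (by omega) (h5.trans hW.2.symm)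
      omega
    · omega
    · omega
  have hWuniq : ∀ i j j', W i j → W i j' → j = j' := by
    intro i j j' h1 h2
    exact (idx_inj (by omega : 0 < S) (by omega : 0 < S)
      (by have := h1.2; have := h2.2; omega : S * j + 0 = S * j' + 0)).1
  let o : ℕ → Option ℕ := fun i => if hW : ∃ j, W i j then some hW.choose else none
  have ho_some : ∀ i j, o i = some j → W i j := by
    intro i j hij
    simp only [o] at hij
    split_ifs at hij with hW
    have := hW.choose_spec
    rw [Option.some.injEq] at hij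
    rwa [hij] at this
  have ho_of : ∀ i j, W i j → o i = some j := by
    intro i j hW
    have hex : ∃ j, W i j := ⟨j, hW⟩
    simp only [o, dif_pos hex]
    rw [hWuniq i _ _ hex.choose_spec hW]
  have ho_none : ∀ i, o i = none → ¬ ∃ j, W i j := by
    rintro i hi ⟨j, hW⟩
    rw [ho_of i j hW] at hi
    exact Option.some_ne_none _ hi
  -- the partner
  let g : ℕ → ℕ := fun i => match o i with
    | none => i
    | some j => n + S * j + (S - 1)
  have hg_none : ∀ i, o i = none → g i = i := fun i hi => by simp only [g, hi]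
  have hg_some : ∀ i j, o i = some j → g i = n + S * j + (S - 1) := fun i j hi => by
    simp only [g, hi]
  have hlast : ∀ i < n, ∀ j, o i = some j → ∃ hj : j < long.length,
      long[j].2.1 = p' (n + S * j + (S - 1)) := by
    intro i hi j hij
    obtain ⟨hj, -, -, h3⟩ := hWuse i hi j (ho_some i j hij)
    refine ⟨hj, ?_⟩
    rcases hA j hj (S - 1) (by omega) with ⟨h4, -⟩ | ⟨h4, -⟩
    · rw [if_pos (by omega)] at h4
      exact h4.symm
    · exact absurd h4 (hup j hj h3 (S - 1) (by omega))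
  have hshort : ∀ i < n, o i = none → (i, p' i, c' i) ∈ short := by
    intro i hi hoi
    rcases mem_big.1 (hE i (by omega)) with h1 | ⟨j, hj, h1⟩
    · exact h1
    · rcases h1 with ⟨-, h3, -⟩ | ⟨t, ht, h2, -, -⟩ | ⟨t, ht, h2, -, -⟩
      · exact absurd ⟨j, hj, h3⟩ (ho_none i hoi)
      · omega
      · omega
  have hglt : ∀ i < n, g i < n + S * long.length := by
    intro i hi
    rcases ho : o i with _ | j
    · rw [hg_none i ho]; omega
    · rw [hg_some i j ho]
      exact idx_lt (by omega) (ho_some i j ho).1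
  have hginj : ∀ i < n, ∀ i' < n, g i = g i' → i = i' := by
    intro i hi i' hi' hgg
    rcases ho : o i with _ | j <;> rcases ho' : o i' with _ | j'
    · rwa [hg_none i ho, hg_none i' ho'] at hgg
    · rw [hg_none i ho, hg_some i' j' ho'] at hgg
      omega
    · rw [hg_some i j ho, hg_none i' ho'] at hgg
      omega
    · rw [hg_some i j ho, hg_some i' j' ho'] at hgg
      obtain ⟨rfl, -⟩ := idx_inj (by omega : S - 1 < S) (by omega : S - 1 < S)
        (by omega : S * j + (S - 1) = S * j' + (S - 1))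
      obtain ⟨hj, h1, -⟩ := hWuse i hi j (ho_some i j ho)
      obtain ⟨hj', h2, -⟩ := hWuse i' hi' j (ho_some i' j ho')
      rw [← h1, ← h2]
  refine ⟨fun i => p' (g i), o, ⟨?_, ?_, ?_, ?_⟩, ⟨fun _ _ _ => rfl, ?_, ?_, ?_⟩⟩
  · intro i hi
    show p' (g i) < n
    rcases ho : o i with _ | j
    · rw [hg_none i ho]
      exact (hs _ (hshort i hi ho)).2
    · rw [hg_some i j ho]
      obtain ⟨hj, h1⟩ := hlast i hi j ho
      rw [← h1]
      exact (hlj j hj).2
  · intro i hi i' hi' hpp
    exact hginj i hi i' hi' (hinj _ (hglt i hi) _ (hglt i' hi') hpp)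
  · intro i hi ho
    show (i, p' (g i), c' i) ∈ short
    rw [hg_none i ho]
    exact hshort i hi ho
  · intro i hi j ho
    obtain ⟨hj, h1, h2, -⟩ := hWuse i hi j (ho_some i j ho)
    obtain ⟨_, h3⟩ := hlast i hi j ho
    refine ⟨hj, h1, ?_⟩
    show _ = p' (g i)
    rw [hg_some i j ho, h3]
  · intro i hi j ho hj
    obtain ⟨_, -, h2, -⟩ := hWuse i hi j (ho_some i j ho)
    exact h2
  · rintro j hj ⟨i, hi, ho⟩ t ht
    obtain ⟨_, -, -, h3⟩ := hWuse i hi j (ho_some i j ho)
    rcases hA j hj t ht with ⟨-, h4⟩ | ⟨h4, -⟩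
    · exact h4
    · exact absurd h4 (hup j hj h3 t ht)
  · intro j hj hno t ht
    have h0 : p' (n + S * j + 0) = n + S * j + 0 := by
      by_contra hne
      obtain ⟨x, hx, hpx⟩ := hsurj (n + S * j + 0) (idx_lt (by omega) hj)
      rcases hB j hj 0 (by omega) x hx hpx with ⟨-, h3, -⟩ | ⟨h3, -⟩ | h3
      · apply hno
        refine ⟨x, ?_, ho_of x j ⟨hj, hpx⟩⟩
        rw [h3]
        exact (hlj j hj).1
      · omega
      · rw [h3] at hpx
        exact hne hpx
    rcases hA j hj t ht with ⟨h4, -⟩ | ⟨-, h4⟩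
    · have h5 := hdown j hj h0 t ht
      rw [h5] at h4
      split_ifs at h4 with h6
      · have := (hlj j hj).2
        omega
      · omega
    · exact h4

theorem forward [Inhabited L] {n S : ℕ} {us ns : D → ℕ → L} {short : List (ℕ × ℕ × L)}
    {long : List (ℕ × ℕ × D)} (hS : 1 ≤ S) {p : ℕ → ℕ} {c : ℕ → L} {o : ℕ → Option ℕ}
    (h : Src n short long p c o) :
    ∃ p' c', IsPM (n + S * long.length) (big n S us ns short long) p' c' ∧
      Lab n S us ns long c o c' := by
  classical
  obtain ⟨hlt, hinj, hsh, hlg⟩ := h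
  have hex : ∀ x : ℕ, x < n + S * long.length → ∃ y : ℕ × L,
      (x < n → o x = none → y = (p x, c x)) ∧
      (x < n → ∀ j, o x = some j → ∀ hj : j < long.length,
        y = (n + S * j, us long[j].2.2 0)) ∧
      (∀ j, ∀ hj : j < long.length, ∀ t < S, x = n + S * j + t → (∃ i < n, o i = some j) →
        y = ((if t + 1 = S then long[j].2.1 else n + S * j + t + 1), us long[j].2.2 (t + 1))) ∧
      (∀ j, ∀ hj : j < long.length, ∀ t < S, x = n + S * j + t → (¬ ∃ i < n, o i = some j) →
        y = (n + S * j + t, ns long[j].2.2 t)) := by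
    intro x hx
    by_cases hxn : x < n
    · rcases ho : o x with _ | j
      · exact ⟨(p x, c x), fun _ _ => rfl, fun _ j hj => absurd hj (by simp),
          fun j hj t ht h1 => by omega, fun j hj t ht h1 => by omega⟩
      · obtain ⟨hj, -, -⟩ := hlg x hxn j ho
        refine ⟨(n + S * j, us long[j].2.2 0), fun _ h1 => absurd h1 (by simp), ?_,
          fun j hj t ht h1 => by omega, fun j hj t ht h1 => by omega⟩
        intro _ j' hj' hjl
        obtain rfl : j = j' := Option.some.inj hj'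
        rfl
    · obtain ⟨j, t, hj, ht, rfl⟩ : ∃ j t, j < long.length ∧ t < S ∧ x = n + S * j + t := by
        refine ⟨(x - n) / S, (x - n) % S, ?_, Nat.mod_lt _ (by omega), ?_⟩
        · rw [Nat.div_lt_iff_lt_mul (by omega)]
          rw [Nat.mul_comm]
          omega
        · have := Nat.div_add_mod (x - n) S
          omega
      by_cases hu : ∃ i < n, o i = some j
      · refine ⟨((if t + 1 = S then long[j].2.1 else n + S * j + t + 1), us long[j].2.2 (t + 1)),
          fun h1 => absurd h1 hxn, fun h1 => absurd h1 hxn, ?_, ?_⟩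
        · intro j' hj' t' ht' h1 _
          obtain ⟨rfl, rfl⟩ := idx_inj ht ht' (by omega : S * j + t = S * j' + t')
          rfl
        · intro j' hj' t' ht' h1 h2
          obtain ⟨rfl, rfl⟩ := idx_inj ht ht' (by omega : S * j + t = S * j' + t')
          exact absurd hu h2
      · refine ⟨(n + S * j + t, ns long[j].2.2 t),
          fun h1 => absurd h1 hxn, fun h1 => absurd h1 hxn, ?_, ?_⟩
        · intro j' hj' t' ht' h1 h2
          obtain ⟨rfl, rfl⟩ := idx_inj ht ht' (by omega : S * j + t = S * j' + t')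
          exact absurd h2 hu
        · intro j' hj' t' ht' h1 _
          obtain ⟨rfl, rfl⟩ := idx_inj ht ht' (by omega : S * j + t = S * j' + t')
          rfl
  choose! y hy using hex
  -- the four kinds of left vertices
  have kind : ∀ x, x < n + S * long.length →
      (x < n ∧ o x = none ∧ y x = (p x, c x)) ∨
      (x < n ∧ ∃ j, ∃ hj : j < long.length, o x = some j ∧ long[j].1 = x ∧ long[j].2.1 = p x ∧
        y x = (n + S * j, us long[j].2.2 0)) ∨
      (∃ j, ∃ hj : j < long.length, ∃ t < S, x = n + S * j + t ∧ (∃ i < n, o i = some j) ∧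
        y x = ((if t + 1 = S then long[j].2.1 else n + S * j + t + 1),
          us long[j].2.2 (t + 1))) ∨
      (∃ j, ∃ hj : j < long.length, ∃ t < S, x = n + S * j + t ∧ (¬ ∃ i < n, o i = some j) ∧
        y x = (n + S * j + t, ns long[j].2.2 t)) := by
    intro x hx
    obtain ⟨h1, h2, h3, h4⟩ := hy x hx
    by_cases hxn : x < n
    · rcases ho : o x with _ | j
      · exact Or.inl ⟨hxn, rfl, h1 hxn ho⟩
      · obtain ⟨hj, h5, h6⟩ := hlg x hxn j ho
        exact Or.inr (Or.inl ⟨hxn, j, hj, rfl, h5, h6, h2 hxn j ho hj⟩)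
    · obtain ⟨j, t, hj, ht, rfl⟩ : ∃ j t, j < long.length ∧ t < S ∧ x = n + S * j + t := by
        refine ⟨(x - n) / S, (x - n) % S, ?_, Nat.mod_lt _ (by omega), ?_⟩
        · rw [Nat.div_lt_iff_lt_mul (by omega)]
          rw [Nat.mul_comm]
          omega
        · have := Nat.div_add_mod (x - n) S
          omega
      by_cases hu : ∃ i < n, o i = some j
      · exact Or.inr (Or.inr (Or.inl ⟨j, hj, t, ht, rfl, hu, h3 j hj t ht rfl hu⟩))
      · exact Or.inr (Or.inr (Or.inr ⟨j, hj, t, ht, rfl, hu, h4 j hj t ht rfl hu⟩))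
  refine ⟨fun x => (y x).1, fun x => (y x).2, ⟨?_, ?_, ?_⟩, ⟨?_, ?_, ?_, ?_⟩⟩
  · intro x hx
    show (x, (y x).1, (y x).2) ∈ _
    rw [mem_big]
    rcases kind x hx with ⟨h1, h2, h3⟩ | ⟨h1, j, hj, h2, h3, h4, h5⟩ |
      ⟨j, hj, t, ht, h1, h2, h3⟩ | ⟨j, hj, t, ht, h1, h2, h3⟩
    · left
      rw [h3]
      exact hsh x h1 h2
    · right
      exact ⟨j, hj, Or.inl ⟨h3.symm, by rw [h5], by rw [h5]⟩⟩
    · right
      exact ⟨j, hj, Or.inr (Or.inl ⟨t, ht, h1, by rw [h3], by rw [h3]⟩)⟩
    · right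
      exact ⟨j, hj, Or.inr (Or.inr ⟨t, ht, h1, by rw [h3], by rw [h3]⟩)⟩
  · intro x hx
    show (y x).1 < _
    rcases kind x hx with ⟨h1, h2, h3⟩ | ⟨h1, j, hj, h2, h3, h4, h5⟩ |
      ⟨j, hj, t, ht, h1, h2, h3⟩ | ⟨j, hj, t, ht, h1, h2, h3⟩
    · rw [h3]
      exact (hlt x h1).trans_le (Nat.le_add_right _ _)
    · rw [h5]
      exact idx_lt (t := 0) (by omega) hj
    · rw [h3]
      show (if t + 1 = S then long[j].2.1 else n + S * j + t + 1) < _
      split_ifs with h4
      · obtain ⟨i, hi, hoi⟩ := h2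
        obtain ⟨hj', -, h5⟩ := hlg i hi j hoi
        rw [h5]
        exact (hlt i hi).trans_le (Nat.le_add_right _ _)
      · exact idx_lt (t := t + 1) (by omega) hj
    · rw [h3]
      exact idx_lt ht hj
  · -- injectivity
    have key : ∀ x, x < n + S * long.length → ∀ z, z = (y x).1 →
        (z < n ∧ ∃ i < n, z = p i ∧ ((o i = none ∧ x = i) ∨
          ∃ j, o i = some j ∧ x = n + S * j + (S - 1))) ∨
        (∃ j, j < long.length ∧ ∃ t < S, z = n + S * j + t ∧
          (((∃ i < n, o i = some j) ∧ t = 0 ∧ x < n ∧ o x = some j) ∨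
           ((∃ i < n, o i = some j) ∧ 0 < t ∧ x = n + S * j + (t - 1)) ∨
           ((¬ ∃ i < n, o i = some j) ∧ x = n + S * j + t))) := by
      intro x hx z hz
      rcases kind x hx with ⟨h1, h2, h3⟩ | ⟨h1, j, hj, h2, h3, h4, h5⟩ |
        ⟨j, hj, t, ht, h1, h2, h3⟩ | ⟨j, hj, t, ht, h1, h2, h3⟩
      · left
        rw [h3] at hz
        exact ⟨by rw [hz]; exact hlt x h1, x, h1, hz, Or.inl ⟨h2, rfl⟩⟩
      · right
        rw [h5] at hz
        exact ⟨j, hj, 0, by omega, hz, Or.inl ⟨⟨x, h1, h2⟩, rfl, h1, h2⟩⟩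
      · rw [h3] at hz
        simp only at hz
        split_ifs at hz with h4
        · left
          obtain ⟨i, hi, hoi⟩ := h2
          obtain ⟨hj', -, h5⟩ := hlg i hi j hoi
          refine ⟨by rw [hz, h5]; exact hlt i hi, i, hi, by rw [hz, h5], Or.inr ⟨j, hoi, ?_⟩⟩
          omega
        · right
          exact ⟨j, hj, t + 1, by omega, hz, Or.inr (Or.inl ⟨h2, by omega, by omega⟩)⟩
      · right
        rw [h3] at hz
        exact ⟨j, hj, t, ht, hz, Or.inr (Or.inr ⟨h2, h1⟩)⟩
    intro x hx x' hx' hxx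
    replace hxx : (y x).1 = (y x').1 := hxx
    rcases key x hx _ rfl with ⟨h1, i, hi, h2, h3⟩ | ⟨j, hj, t, ht, h1, h2⟩ <;>
      rcases key x' hx' _ hxx with ⟨h1', i', hi', h2', h3'⟩ | ⟨j', hj', t', ht', h1', h2'⟩
    · obtain rfl := hinj i hi i' hi' (h2.symm.trans h2')
      rcases h3 with ⟨h4, rfl⟩ | ⟨j, h4, rfl⟩ <;> rcases h3' with ⟨h4', rfl⟩ | ⟨j', h4', rfl⟩
      · rfl
      · rw [h4] at h4'
        exact absurd h4' (by simp)
      · rw [h4] at h4'
        exact absurd h4' (by simp)
      · rw [h4] at h4'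
        rw [Option.some.inj h4']
    · omega
    · omega
    · obtain ⟨rfl, rfl⟩ := idx_inj ht ht' (by omega : S * j + t = S * j' + t')
      rcases h2 with ⟨h3, h4, h5, h6⟩ | ⟨h3, h4, h5⟩ | ⟨h3, h5⟩ <;>
        rcases h2' with ⟨h3', h4', h5', h6'⟩ | ⟨h3', h4', h5'⟩ | ⟨h3', h5'⟩
      · obtain ⟨_, h7, -⟩ := hlg x h5 j h6
        obtain ⟨_, h8, -⟩ := hlg x' h5' j h6'
        rw [← h7, ← h8]
      · omega
      · exact absurd h3 h3'
      · omega
      · rw [h5, h5']
      · exact absurd h3 h3'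
      · exact absurd h3' h3
      · exact absurd h3' h3
      · rw [h5, h5']
  · intro i hi ho
    show (y i).2 = c i
    rw [(hy i (by omega)).1 hi ho]
  · intro i hi j ho hj
    show (y i).2 = _
    rw [(hy i (by omega)).2.1 hi j ho hj]
  · intro j hj hu t ht
    show (y _).2 = _
    rw [(hy _ (idx_lt ht hj)).2.2.1 j hj t ht rfl hu]
  · intro j hj hu t ht
    show (y _).2 = _
    rw [(hy _ (idx_lt ht hj)).2.2.2 j hj t ht rfl hu]

/-- a sum over all left vertices of the big graph -/
theorem sum_blocks (f : ℕ → ℕ) (n S m : ℕ) :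
    ∑ i ∈ Finset.range (n + S * m), f i =
      ∑ i ∈ Finset.range n, f i + ∑ j ∈ Finset.range m, ∑ t ∈ Finset.range S, f (n + S * j + t) := by
  induction m with
  | zero => simp
  | succ m ih =>
    rw [Nat.mul_succ, ← Nat.add_assoc, Finset.sum_range_add, ih, Finset.sum_range_succ, add_assoc]

open Classical in
/-- the number of the used long edges is the number of the left vertices with a long edge -/
theorem Src.card {n : ℕ} {short : List (ℕ × ℕ × L)} {long : List (ℕ × ℕ × D)} {p : ℕ → ℕ}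
    {c : ℕ → L} {o : ℕ → Option ℕ} (h : Src n short long p c o) :
    ((Finset.range long.length).filter fun j => ∃ i < n, o i = some j).card =
      ((Finset.range n).filter fun i => (o i).isSome = true).card := by
  symm
  refine Finset.card_bij (fun i _ => (o i).getD 0) ?_ ?_ ?_
  · intro i hi
    simp only [Finset.mem_filter, Finset.mem_range] at hi ⊢
    obtain ⟨j, hj⟩ := Option.isSome_iff_exists.1 hi.2
    obtain ⟨hjl, -⟩ := h.lg i hi.1 j hj
    rw [hj]
    exact ⟨hjl, i, hi.1, hj⟩
  · intro i hi i' hi' he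
    simp only [Finset.mem_filter, Finset.mem_range] at hi hi'
    obtain ⟨j, hj⟩ := Option.isSome_iff_exists.1 hi.2
    obtain ⟨j', hj'⟩ := Option.isSome_iff_exists.1 hi'.2
    simp only [hj, hj', Option.getD_some] at he
    subst he
    obtain ⟨_, h1, -⟩ := h.lg i hi.1 j hj
    obtain ⟨_, h2, -⟩ := h.lg i' hi'.1 j hj'
    rw [← h1, ← h2]
  · intro j hj
    simp only [Finset.mem_filter, Finset.mem_range] at hj
    obtain ⟨hjl, i, hi, ho⟩ := hj
    exact ⟨i, by simp [hi, ho], by simp [ho]⟩

end Run7.h180.EMX
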