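import Pool.Agent.Run7.h180.EM.Num
import Pool.Agent.H38.NP.Api

/-!
# The reduction with three arbitrary weights
-/

set_option autoImplicit false

namespace Run7.h180.EMX

open Finset Pool.Agent.H38.NP

section
variable {L D : Type} {n S : ℕ} {us ns : D → ℕ → L} {short : List (ℕ × ℕ × L)}
  {long : List (ℕ × ℕ × D)}

theorem big_lt (hS : 1 ≤ S) (hs : ∀ e ∈ short, e.1 < n ∧ e.2.1 < n)
    (hl : ∀ e ∈ long, e.1 < n ∧ e.2.1 < n) :
    ∀ e ∈ big n S us ns short long, e.1 < n + S * long.length ∧ e.2.1 < n + S * long.length := by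
  rintro ⟨x, y, l⟩ he
  have hlj : ∀ j, ∀ hj : j < long.length, long[j].1 < n ∧ long[j].2.1 < n := fun j hj =>
    hl _ (List.getElem_mem hj)
  rcases mem_big.1 he with h | ⟨j, hj, h⟩
  · exact ⟨(hs _ h).1.trans_le (Nat.le_add_right _ _), (hs _ h).2.trans_le (Nat.le_add_right _ _)⟩
  · have h1 := hlj j hj
    rcases h with ⟨h2, h3, -⟩ | ⟨t, ht, h2, h3, -⟩ | ⟨t, ht, h2, h3, -⟩
    · have h4 := idx_lt (n := n) (t := 0) (by omega : 0 < S) hj
      exact ⟨by simp only; omega, by simp only; omega⟩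
    · have h4 := idx_lt (n := n) ht hj
      refine ⟨by simp only; omega, ?_⟩
      simp only
      split_ifs at h3 with h5
      · omega
      · have h6 := idx_lt (n := n) (t := t + 1) (by omega : t + 1 < S) hj
        omega
    · have h4 := idx_lt (n := n) ht hj
      exact ⟨by simp only; omega, by simp only; omega⟩

theorem big_simple (hS : 1 ≤ S) (hs : ∀ e ∈ short, e.1 < n ∧ e.2.1 < n)
    (hl : ∀ e ∈ long, e.1 < n ∧ e.2.1 < n)
    (hss : ∀ e ∈ short, ∀ e' ∈ short, e.1 = e'.1 → e.2.1 = e'.2.1 → e = e') :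
    ∀ e ∈ big n S us ns short long, ∀ e' ∈ big n S us ns short long,
      e.1 = e'.1 → e.2.1 = e'.2.1 → e = e' := by
  rintro ⟨x, y, l⟩ he ⟨x', y', l'⟩ he' hx hy
  simp only at hx hy
  subst hx
  subst hy
  suffices l = l' by rw [this]
  have hlj : ∀ j, ∀ hj : j < long.length, long[j].1 < n ∧ long[j].2.1 < n := fun j hj =>
    hl _ (List.getElem_mem hj)
  rcases mem_big.1 he with h | ⟨j, hj, h⟩ <;> rcases mem_big.1 he' with h' | ⟨j', hj', h'⟩
  · exact congrArg (fun e => e.2.2) (hss _ h _ h' rfl rfl)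
  · have h0 := hs _ h
    simp only at h0
    rcases h' with ⟨h2, h3, -⟩ | ⟨t, ht, h2, h3, -⟩ | ⟨t, ht, h2, h3, -⟩ <;> omega
  · have h0 := hs _ h'
    simp only at h0
    rcases h with ⟨h2, h3, -⟩ | ⟨t, ht, h2, h3, -⟩ | ⟨t, ht, h2, h3, -⟩ <;> omega
  · have h1 := hlj j hj
    have h1' := hlj j' hj'
    rcases h with ⟨h2, h3, rfl⟩ | ⟨t, ht, h2, h3, rfl⟩ | ⟨t, ht, h2, h3, rfl⟩ <;>
      rcases h' with ⟨h2', h3', rfl⟩ | ⟨t', ht', h2', h3', rfl⟩ | ⟨t', ht', h2', h3', rfl⟩
    · obtain ⟨rfl, -⟩ := idx_inj (by omega : 0 < S) (by omega : 0 < S)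
        (by omega : S * j + 0 = S * j' + 0)
      rfl
    · omega
    · omega
    · omega
    · obtain ⟨rfl, rfl⟩ := idx_inj ht ht' (by omega : S * j + t = S * j' + t')
      rfl
    · obtain ⟨rfl, rfl⟩ := idx_inj ht ht' (by omega : S * j + t = S * j' + t')
      exfalso
      split_ifs at h3 <;> omega
    · omega
    · obtain ⟨rfl, rfl⟩ := idx_inj ht ht' (by omega : S * j + t = S * j' + t')
      exfalso
      split_ifs at h3' <;> omega
    · obtain ⟨rfl, rfl⟩ := idx_inj ht ht' (by omega : S * j + t = S * j' + t')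
      rfl

end

/-- the blue edges, with weight `mi` -/
def bl (mi n : ℕ) (E : List (ℕ × ℕ × Bool)) : List (ℕ × ℕ × ℕ) :=
  (E.filter fun e => decide (e.1 < n) && (decide (e.2.1 < n) && !e.2.2)).map
    fun e => (e.1, e.2.1, mi)

theorem mem_bl {mi n : ℕ} {E : List (ℕ × ℕ × Bool)} {u v w : ℕ} :
    (u, v, w) ∈ bl mi n E ↔ (u, v, false) ∈ E ∧ u < n ∧ v < n ∧ w = mi := by
  unfold bl
  simp only [List.mem_map, List.mem_filter, Bool.and_eq_true, decide_eq_true_eq,
    Bool.not_eq_true', Prod.exists, Prod.mk.injEq]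
  constructor
  · rintro ⟨a, b, c, ⟨h1, h2, h3, h4⟩, rfl, rfl, rfl⟩
    subst h4
    exact ⟨h1, h2, h3, rfl⟩
  · rintro ⟨h1, h2, h3, rfl⟩
    exact ⟨u, v, false, ⟨h1, h2, h3, rfl⟩, rfl, rfl, rfl⟩

/-- the weights of a used path -/
def ug (mi : ℕ) : Unit → ℕ → ℕ := fun _ _ => mi

/-- the weights of an unused path -/
def ng (lo hi : ℕ) : Unit → ℕ → ℕ := fun _ t => if t = 0 then hi else lo

/-- the graph of the reduction, with the weights `lo`, `lo + A + 1` and `lo + A + 1 + β` -/
def tg (lo A β n : ℕ) (E : List (ℕ × ℕ × Bool)) : List (ℕ × ℕ × ℕ) :=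
  big n (β + 2) (ug (lo + A + 1)) (ng lo (lo + A + 1 + β)) (bl (lo + A + 1) n E) (red n E)

theorem exact_iffG {mi n k : ℕ} {E : List (ℕ × ℕ × Bool)} :
    HasExact n k E ↔ ∃ p c o, Src n (bl mi n E) (red n E) p c o ∧ cnt n o = k := by
  rw [exact_iff]
  constructor
  · rintro ⟨p, c, o, h, hk⟩
    refine ⟨p, fun _ => mi, o, ⟨h.lt, h.inj, fun i hi ho => ?_, h.lg⟩, hk⟩
    have := mem_blue.1 (h.sh i hi ho)
    exact mem_bl.2 ⟨this.1, this.2.1, this.2.2.1, rfl⟩
  · rintro ⟨p, c, o, h, hk⟩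
    refine ⟨p, fun _ => 9, o, ⟨h.lt, h.inj, fun i hi ho => ?_, h.lg⟩, hk⟩
    have := mem_bl.1 (h.sh i hi ho)
    exact mem_blue.2 ⟨this.1, this.2.1, this.2.2.1, rfl⟩

theorem totalG {lo mi hi β n : ℕ} {E : List (ℕ × ℕ × Bool)} {p : ℕ → ℕ} {c : ℕ → ℕ}
    {o : ℕ → Option ℕ} {c' : ℕ → ℕ} (h : Src n (bl mi n E) (red n E) p c o)
    (hl : Lab n (β + 2) (ug mi) (ng lo hi) (red n E) c o c') (F : ℕ → ℕ) :
    ∃ q, cnt n o + q = (red n E).length ∧
    ∑ i ∈ range (n + (β + 2) * (red n E).length), F (c' i) =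
      n * F mi + cnt n o * ((β + 2) * F mi) + q * (F hi + (β + 1) * F lo) := by
  classical
  refine ⟨((range (red n E).length).filter fun j => ¬ ∃ i < n, o i = some j).card, ?_, ?_⟩
  · unfold cnt
    rw [← h.card]
    have := Finset.card_filter_add_card_filter_not (s := range (red n E).length)
      (fun j => ∃ i < n, o i = some j)
    rw [card_range] at this
    exact this
  · rw [sum_blocks (fun i => F (c' i))]
    have h0 : ∀ i < n, c' i = mi := by
      intro i hi
      rcases ho : o i with _ | j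
      · rw [hl.sh i hi ho]
        exact (mem_bl.1 (h.sh i hi ho)).2.2.2
      · obtain ⟨hj, -⟩ := h.lg i hi j ho
        exact hl.lg i hi j ho hj
    have h1 : ∑ i ∈ range n, F (c' i) = n * F mi := by
      rw [Finset.sum_congr rfl (fun i hi => by
        rw [h0 i (mem_range.1 hi)] : ∀ i ∈ range n, F (c' i) = F mi)]
      simp
    have h2 : ∑ j ∈ range (red n E).length, ∑ t ∈ range (β + 2), F (c' (n + (β + 2) * j + t)) =
        ∑ j ∈ range (red n E).length, if ∃ i < n, o i = some j then (β + 2) * F mi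
          else F hi + (β + 1) * F lo := by
      refine Finset.sum_congr rfl fun j hj => ?_
      rw [mem_range] at hj
      split_ifs with hu
      · rw [Finset.sum_congr rfl (fun t ht => by
          rw [hl.used j hj hu t (mem_range.1 ht)]; rfl :
            ∀ t ∈ range (β + 2), F (c' (n + (β + 2) * j + t)) = F mi)]
        simp
      · rw [Finset.sum_congr rfl (fun t ht => by
          rw [hl.unused j hj hu t (mem_range.1 ht)]; rfl :
            ∀ t ∈ range (β + 2), F (c' (n + (β + 2) * j + t)) = F (if t = 0 then hi else lo))]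
        rw [Finset.sum_range_succ' _ (β + 1)]
        simp only [Nat.add_eq_zero_iff, one_ne_zero, and_false, if_false, if_true,
          Finset.sum_const, card_range, smul_eq_mul]
        ring
    rw [h1, h2, Finset.sum_ite]
    simp only [Finset.sum_const, smul_eq_mul]
    rw [h.card, ← cnt]
    ring

theorem main_iffG {lo A β n k : ℕ} (hβ : 1 ≤ β) {E : List (ℕ × ℕ × Bool)} :
    HasExact n k E ↔ HasExt (n + (β + 2) * (red n E).length)
      ((red n E).length + n + (β + 1) * k)
      (n * (lo + A + 1) + (red n E).length * (lo + A + 1 + β) + k * ((β + 1) * (lo + A) + 1))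
      (tg lo A β n E) := by
  classical
  rw [exact_iffG (mi := lo + A + 1)]
  constructor
  · rintro ⟨p, c, o, h, hk⟩
    obtain ⟨p', c', hpm, hl⟩ := forward (S := β + 2) (us := ug (lo + A + 1))
      (ns := ng lo (lo + A + 1 + β)) (by omega) h
    refine ⟨p', c', hpm, (range (n + (β + 2) * (red n E).length)).filter fun i => c' i ≠ lo,
      Finset.filter_subset _ _, ?_, ?_⟩
    · obtain ⟨q, hq, h1⟩ := totalG h hl (fun x => if x ≠ lo then 1 else 0)
      have e1 : lo + A + 1 ≠ lo := by omega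
      have e2 : lo + A + 1 + β ≠ lo := by omega
      rw [Finset.card_filter, h1, if_pos e1, if_pos e2, if_neg (by simp), ← hq, hk]
      ring
    · obtain ⟨q, hq, h1⟩ := totalG h hl (fun x => if x ≠ lo then x else 0)
      have e1 : lo + A + 1 ≠ lo := by omega
      have e2 : lo + A + 1 + β ≠ lo := by omega
      rw [Finset.sum_filter, h1, if_pos e1, if_pos e2, if_neg (by simp), ← hq, hk]
      apply le_of_eq
      ring
  · rintro ⟨p', c', hpm, S, hS, hc, hW⟩
    obtain ⟨p, o, h, hl⟩ := backward (S := β + 2) (us := ug (lo + A + 1))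
      (ns := ng lo (lo + A + 1 + β)) (by omega)
      (fun e he => by
        obtain ⟨u, v, w⟩ := e
        exact ⟨(mem_bl.1 he).2.1, (mem_bl.1 he).2.2.1⟩)
      (fun e he => by
        obtain ⟨u, v, w⟩ := e
        exact (mem_red.1 he).2) hpm
    refine ⟨p, c', o, h, ?_⟩
    obtain ⟨q, hq, h1⟩ := totalG h hl (fun x => x - lo)
    obtain ⟨q', hq', h2⟩ := totalG h hl (fun x => x - (lo + A + 1))
    have hqq : q' = q := by omega
    subst hqq
    have e1 : lo + A + 1 - lo = A + 1 := by omega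
    have e2 : lo + A + 1 + β - lo = A + 1 + β := by omega
    have e3 : lo - lo = 0 := by omega
    have e4 : lo + A + 1 + β - (lo + A + 1) = β := by omega
    have e5 : lo - (lo + A + 1) = 0 := by omega
    have e6 : lo + A + 1 - (lo + A + 1) = 0 := by omega
    simp only [e1, e2, e3, mul_zero, add_zero] at h1
    simp only [e4, e5, e6, mul_zero, add_zero, zero_add] at h2
    have h3 : ∑ i ∈ S, c' i ≤ ∑ i ∈ S, (lo + (c' i - lo)) :=
      Finset.sum_le_sum fun i _ => by omega
    have h4 : ∑ i ∈ S, c' i ≤ ∑ i ∈ S, (lo + A + 1 + (c' i - (lo + A + 1))) :=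
      Finset.sum_le_sum fun i _ => by omega
    rw [Finset.sum_add_distrib, Finset.sum_const, hc, smul_eq_mul] at h3 h4
    have h5 : ∑ i ∈ S, (c' i - lo) ≤ ∑ i ∈ range (n + (β + 2) * (red n E).length), (c' i - lo) :=
      Finset.sum_le_sum_of_subset hS
    have h6 : ∑ i ∈ S, (c' i - (lo + A + 1)) ≤
        ∑ i ∈ range (n + (β + 2) * (red n E).length), (c' i - (lo + A + 1)) :=
      Finset.sum_le_sum_of_subset hS
    rw [h1] at h5
    rw [h2] at h6
    rw [← hq] at h3 h4 hW
    have h7 : k * ((β + 1) * A + 1) ≤ cnt n o * ((β + 1) * A + 1) := by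
      have := hW.trans (h3.trans (Nat.add_le_add_left h5 _))
      nlinarith [this]
    have h8 : cnt n o * β ≤ k * β := by
      have := hW.trans (h4.trans (Nat.add_le_add_left h6 _))
      nlinarith [this]
    exact le_antisymm (Nat.le_of_mul_le_mul_right h8 (by omega))
      (Nat.le_of_mul_le_mul_right h7 (by omega))

end Run7.h180.EMX
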