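import Pool.Agent.Run7.h180.EM.Gad

/-!
# Exact matchings and heavy extendable matchings
-/

set_option autoImplicit false

namespace Run7.h180.EMX

open Finset

/-- the bipartite graph with `n` vertices on each side and the red (`true`) and blue (`false`)
edges `E` has a perfect matching with exactly `k` red edges -/
def HasExact (n k : ℕ) (E : List (ℕ × ℕ × Bool)) : Prop :=
  ∃ p c, IsPM n E p c ∧ ((range n).filter fun i => c i = true).card = k

/-- the blue edges, with weight 9 -/
def blue (n : ℕ) (E : List (ℕ × ℕ × Bool)) : List (ℕ × ℕ × ℕ) :=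
  (E.filter fun e => decide (e.1 < n) && (decide (e.2.1 < n) && !e.2.2)).map fun e => (e.1, e.2.1, 9)

/-- the red edges -/
def red (n : ℕ) (E : List (ℕ × ℕ × Bool)) : List (ℕ × ℕ × Unit) :=
  (E.filter fun e => decide (e.1 < n) && (decide (e.2.1 < n) && e.2.2)).map fun e => (e.1, e.2.1, ())

/-- the weights of the path on which it is used -/
def uw : Unit → ℕ → ℕ := fun _ _ => 9

/-- the weights of the path on which it is not used -/
def nw : Unit → ℕ → ℕ := fun _ t => if t = 0 then 10 else 0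

/-- the graph of the reduction -/
def tgt (n : ℕ) (E : List (ℕ × ℕ × Bool)) : List (ℕ × ℕ × ℕ) :=
  big n 3 uw nw (blue n E) (red n E)

theorem mem_blue {n : ℕ} {E : List (ℕ × ℕ × Bool)} {u v w : ℕ} :
    (u, v, w) ∈ blue n E ↔ (u, v, false) ∈ E ∧ u < n ∧ v < n ∧ w = 9 := by
  unfold blue
  simp only [List.mem_map, List.mem_filter, Bool.and_eq_true, decide_eq_true_eq,
    Bool.not_eq_true', Prod.exists, Prod.mk.injEq]
  constructor
  · rintro ⟨a, b, c, ⟨h1, h2, h3, h4⟩, rfl, rfl, rfl⟩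
    subst h4
    exact ⟨h1, h2, h3, rfl⟩
  · rintro ⟨h1, h2, h3, rfl⟩
    exact ⟨u, v, false, ⟨h1, h2, h3, rfl⟩, rfl, rfl, rfl⟩

theorem mem_red {n : ℕ} {E : List (ℕ × ℕ × Bool)} {u v : ℕ} {d : Unit} :
    (u, v, d) ∈ red n E ↔ (u, v, true) ∈ E ∧ u < n ∧ v < n := by
  unfold red
  simp only [List.mem_map, List.mem_filter, Bool.and_eq_true, decide_eq_true_eq,
    Prod.exists, Prod.mk.injEq]
  constructor
  · rintro ⟨a, b, c, ⟨h1, h2, h3, h4⟩, rfl, rfl, -⟩
    subst h4
    exact ⟨h1, h2, h3⟩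
  · rintro ⟨h1, h2, h3⟩
    exact ⟨u, v, true, ⟨h1, h2, h3, rfl⟩, rfl, rfl, trivial⟩

/-- the number of used long edges -/
noncomputable def cnt (n : ℕ) (o : ℕ → Option ℕ) : ℕ :=
  ((range n).filter fun i => (o i).isSome = true).card

theorem exact_iff {n k : ℕ} {E : List (ℕ × ℕ × Bool)} :
    HasExact n k E ↔ ∃ p c o, Src n (blue n E) (red n E) p c o ∧ cnt n o = k := by
  classical
  constructor
  · rintro ⟨p, c, ⟨hE, hlt, hinj⟩, hk⟩
    have hj : ∀ i < n, c i = true → ∃ j, ∃ hj : j < (red n E).length,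
        (red n E)[j] = (i, p i, ()) := by
      intro i hi hc
      have h1 : (i, p i, ()) ∈ red n E := mem_red.2 ⟨by rw [← hc]; exact hE i hi, hi, hlt i hi⟩
      obtain ⟨j, hj, h2⟩ := List.getElem_of_mem h1
      exact ⟨j, hj, h2⟩
    let o : ℕ → Option ℕ := fun i =>
      if h : i < n ∧ c i = true then some (hj i h.1 h.2).choose else none
    have ho : ∀ i < n, (o i).isSome = true ↔ c i = true := by
      intro i hi
      by_cases h : i < n ∧ c i = true
      · simp only [o, dif_pos h, Option.isSome_some, h.2]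
      · simp only [o, dif_neg h]
        constructor
        · intro h'
          simp at h'
        · intro h'
          exact absurd ⟨hi, h'⟩ h
    refine ⟨p, fun _ => 9, o, ⟨hlt, hinj, ?_, ?_⟩, ?_⟩
    · intro i hi hoi
      have h1 : ¬ c i = true := by
        intro h
        have := (ho i hi).2 h
        rw [hoi] at this
        simp at this
      have h2 : c i = false := by simpa using h1
      exact mem_blue.2 ⟨by rw [← h2]; exact hE i hi, hi, hlt i hi, rfl⟩
    · intro i hi j hoi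
      by_cases h : i < n ∧ c i = true
      · simp only [o, dif_pos h, Option.some.injEq] at hoi
        obtain ⟨hj', h2⟩ := (hj i h.1 h.2).choose_spec
        subst hoi
        exact ⟨hj', by rw [h2], by rw [h2]⟩
      · simp only [o, dif_neg h] at hoi
        simp at hoi
    · rw [← hk]
      unfold cnt
      congr 1
      ext i
      simp only [mem_filter, mem_range]
      constructor
      · rintro ⟨h1, h2⟩
        exact ⟨h1, (ho i h1).1 h2⟩
      · rintro ⟨h1, h2⟩
        exact ⟨h1, (ho i h1).2 h2⟩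
  · rintro ⟨p, c, o, h, hk⟩
    refine ⟨p, fun i => (o i).isSome, ⟨?_, h.lt, h.inj⟩, ?_⟩
    · intro i hi
      show (i, p i, (o i).isSome) ∈ E
      rcases ho : o i with _ | j
      · exact (mem_blue.1 (h.sh i hi ho)).1
      · obtain ⟨hj, h1, h2⟩ := h.lg i hi j ho
        have h3 : (red n E)[j] ∈ red n E := List.getElem_mem hj
        have h4 : (red n E)[j] = (i, p i, ()) :=
          Prod.ext h1 (Prod.ext h2 rfl)
        rw [h4] at h3
        exact (mem_red.1 h3).1
    · exact hk

theorem lab_nine {n : ℕ} {E : List (ℕ × ℕ × Bool)} {p : ℕ → ℕ} {c : ℕ → ℕ} {o : ℕ → Option ℕ}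
    {c' : ℕ → ℕ} (h : Src n (blue n E) (red n E) p c o)
    (hl : Lab n 3 uw nw (red n E) c o c') : ∀ i < n, c' i = 9 := by
  intro i hi
  rcases ho : o i with _ | j
  · rw [hl.sh i hi ho]
    exact (mem_blue.1 (h.sh i hi ho)).2.2.2
  · obtain ⟨hj, -⟩ := h.lg i hi j ho
    exact hl.lg i hi j ho hj

/-- the sum of a function of the weights -/
theorem total {n : ℕ} {E : List (ℕ × ℕ × Bool)} {p : ℕ → ℕ} {c : ℕ → ℕ} {o : ℕ → Option ℕ}
    {c' : ℕ → ℕ} (h : Src n (blue n E) (red n E) p c o)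
    (hl : Lab n 3 uw nw (red n E) c o c') (F : ℕ → ℕ) :
    ∃ q, cnt n o + q = (red n E).length ∧
    ∑ i ∈ range (n + 3 * (red n E).length), F (c' i) =
      n * F 9 + cnt n o * (3 * F 9) + q * (F 10 + 2 * F 0) := by
  classical
  refine ⟨((range (red n E).length).filter fun j => ¬ ∃ i < n, o i = some j).card, ?_, ?_⟩
  · unfold cnt
    rw [← h.card]
    have := Finset.card_filter_add_card_filter_not (s := range (red n E).length)
      (fun j => ∃ i < n, o i = some j)
    rw [card_range] at this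
    exact this
  · rw [sum_blocks (fun i => F (c' i))]
    have h1 : ∑ i ∈ range n, F (c' i) = n * F 9 := by
      rw [Finset.sum_congr rfl (fun i hi => by
        rw [lab_nine h hl i (mem_range.1 hi)] : ∀ i ∈ range n, F (c' i) = F 9)]
      simp
    have h2 : ∑ j ∈ range (red n E).length, ∑ t ∈ range 3, F (c' (n + 3 * j + t)) =
        ∑ j ∈ range (red n E).length, if ∃ i < n, o i = some j then 3 * F 9 else F 10 + 2 * F 0 := by
      refine Finset.sum_congr rfl fun j hj => ?_
      rw [mem_range] at hj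
      split_ifs with hu
      · rw [Finset.sum_congr rfl (fun t ht => by
          rw [hl.used j hj hu t (mem_range.1 ht)]; rfl :
            ∀ t ∈ range 3, F (c' (n + 3 * j + t)) = F 9)]
        simp
      · rw [Finset.sum_congr rfl (fun t ht => by
          rw [hl.unused j hj hu t (mem_range.1 ht)] :
            ∀ t ∈ range 3, F (c' (n + 3 * j + t)) = F (nw (red n E)[j].2.2 t))]
        simp only [Finset.sum_range_succ, Finset.sum_range_zero, nw]
        simp
        ring
    rw [h1, h2, Finset.sum_ite]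
    simp only [Finset.sum_const, smul_eq_mul]
    rw [h.card, ← cnt]
    ring

/-- the bipartite graph with the weighted edges `E` has a matching with `k` edges and weight at
least `W` which extends to a perfect matching -/
def HasExt (n k W : ℕ) (E : List (ℕ × ℕ × ℕ)) : Prop :=
  ∃ p c, IsPM n E p c ∧ ∃ S ⊆ range n, S.card = k ∧ W ≤ ∑ i ∈ S, c i

theorem main_iff {n k : ℕ} {E : List (ℕ × ℕ × Bool)} :
    HasExact n k E ↔ HasExt (n + 3 * (red n E).length) ((red n E).length + n + 2 * k)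
      (10 * (red n E).length + 9 * n + 17 * k) (tgt n E) := by
  classical
  rw [exact_iff]
  constructor
  · rintro ⟨p, c, o, h, hk⟩
    obtain ⟨p', c', hpm, hl⟩ := forward (S := 3) (us := uw) (ns := nw) (by norm_num) h
    refine ⟨p', c', hpm, (range (n + 3 * (red n E).length)).filter fun i => c' i ≠ 0,
      Finset.filter_subset _ _, ?_, ?_⟩
    · obtain ⟨q, hq, h1⟩ := total h hl (fun x => if x ≠ 0 then 1 else 0)
      rw [Finset.card_filter, h1]
      simp only [ne_eq, OfNat.ofNat_ne_zero, not_false_eq_true, if_true, not_true_eq_false, if_false]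
      omega
    · obtain ⟨q, hq, h1⟩ := total h hl (fun x => x)
      rw [Finset.sum_filter_ne_zero, h1]
      omega
  · rintro ⟨p', c', hpm, S, hS, hc, hW⟩
    obtain ⟨p, o, h, hl⟩ := backward (S := 3) (us := uw) (ns := nw) (by norm_num)
      (fun e he => by
        obtain ⟨u, v, w⟩ := e
        exact ⟨(mem_blue.1 he).2.1, (mem_blue.1 he).2.2.1⟩)
      (fun e he => by
        obtain ⟨u, v, w⟩ := e
        exact (mem_red.1 he).2) hpm
    refine ⟨p, c', o, h, ?_⟩
    obtain ⟨q, hq, h1⟩ := total h hl (fun x => x)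
    obtain ⟨q', hq', h2⟩ := total h hl (fun x => x - 9)
    have h3 : ∑ i ∈ S, c' i ≤ ∑ i ∈ range (n + 3 * (red n E).length), c' i :=
      Finset.sum_le_sum_of_subset hS
    have h4 : ∑ i ∈ S, c' i ≤ ∑ i ∈ S, (9 + (c' i - 9)) :=
      Finset.sum_le_sum fun i _ => by omega
    rw [Finset.sum_add_distrib, Finset.sum_const, hc, smul_eq_mul] at h4
    have h5 : ∑ i ∈ S, (c' i - 9) ≤ ∑ i ∈ range (n + 3 * (red n E).length), (c' i - 9) :=
      Finset.sum_le_sum_of_subset hS
    omega

/-- valid instances: a simple bipartite graph with `n` vertices on each side, whose edges are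
listed with one weight each, and `k ≤ n` -/
def Valid (I : ℕ × ℕ × List (ℕ × ℕ × ℕ)) : Prop :=
  I.2.1 ≤ I.1 ∧ (∀ e ∈ I.2.2, e.1 < I.1 ∧ e.2.1 < I.1) ∧
    ∀ e ∈ I.2.2, ∀ e' ∈ I.2.2, e.1 = e'.1 → e.2.1 = e'.2.1 → e = e'

theorem tgt_weights {n : ℕ} {E : List (ℕ × ℕ × Bool)} :
    ∀ e ∈ tgt n E, e.2.2 = 0 ∨ e.2.2 = 9 ∨ e.2.2 = 10 := by
  rintro ⟨x, y, l⟩ he
  unfold tgt at he
  rcases mem_big.1 he with h | ⟨j, hj, h⟩
  · exact Or.inr (Or.inl (mem_blue.1 h).2.2.2)
  · rcases h with ⟨-, -, rfl⟩ | ⟨t, ht, -, -, rfl⟩ | ⟨t, ht, -, -, rfl⟩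
    · exact Or.inr (Or.inl rfl)
    · exact Or.inr (Or.inl rfl)
    · by_cases h0 : t = 0
      · exact Or.inr (Or.inr (by simp [nw, h0]))
      · exact Or.inl (by simp [nw, h0])

theorem tgt_lt {n : ℕ} {E : List (ℕ × ℕ × Bool)} :
    ∀ e ∈ tgt n E, e.1 < n + 3 * (red n E).length ∧ e.2.1 < n + 3 * (red n E).length := by
  rintro ⟨x, y, l⟩ he
  unfold tgt at he
  have hlj : ∀ j, ∀ hj : j < (red n E).length, (red n E)[j].1 < n ∧ (red n E)[j].2.1 < n :=
    fun j hj => (mem_red.1 (show ((red n E)[j].1, (red n E)[j].2.1, ()) ∈ red n E from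
      List.getElem_mem hj)).2
  rcases mem_big.1 he with h | ⟨j, hj, h⟩
  · have := (mem_blue.1 h).2
    exact ⟨by simp only; omega, by simp only; omega⟩
  · have h1 := hlj j hj
    rcases h with ⟨h2, h3, -⟩ | ⟨t, ht, h2, h3, -⟩ | ⟨t, ht, h2, h3, -⟩
    · simp only
      omega
    · simp only
      split_ifs at h3 <;> omega
    · simp only
      omega

theorem tgt_simple {n : ℕ} {E : List (ℕ × ℕ × Bool)} :
    ∀ e ∈ tgt n E, ∀ e' ∈ tgt n E, e.1 = e'.1 → e.2.1 = e'.2.1 → e = e' := by
  rintro ⟨x, y, l⟩ he ⟨x', y', l'⟩ he' hx hy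
  simp only at hx hy
  subst hx
  subst hy
  suffices l = l' by rw [this]
  unfold tgt at he he'
  have hlj : ∀ j, ∀ hj : j < (red n E).length, (red n E)[j].1 < n ∧ (red n E)[j].2.1 < n :=
    fun j hj => (mem_red.1 (show ((red n E)[j].1, (red n E)[j].2.1, ()) ∈ red n E from
      List.getElem_mem hj)).2
  rcases mem_big.1 he with h | ⟨j, hj, h⟩ <;> rcases mem_big.1 he' with h' | ⟨j', hj', h'⟩
  · rw [(mem_blue.1 h).2.2.2, (mem_blue.1 h').2.2.2]
  · have h0 := (mem_blue.1 h).2
    have h1 := hlj j' hj'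
    rcases h' with ⟨h2, h3, -⟩ | ⟨t, ht, h2, h3, -⟩ | ⟨t, ht, h2, h3, -⟩ <;> omega
  · have h0 := (mem_blue.1 h').2
    have h1 := hlj j hj
    rcases h with ⟨h2, h3, -⟩ | ⟨t, ht, h2, h3, -⟩ | ⟨t, ht, h2, h3, -⟩ <;> omega
  · have h1 := hlj j hj
    have h1' := hlj j' hj'
    rcases h with ⟨h2, h3, rfl⟩ | ⟨t, ht, h2, h3, rfl⟩ | ⟨t, ht, h2, h3, rfl⟩ <;>
      rcases h' with ⟨h2', h3', rfl⟩ | ⟨t', ht', h2', h3', rfl⟩ | ⟨t', ht', h2', h3', rfl⟩
    · rfl
    · rfl
    · omega
    · rfl
    · rfl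
    · exfalso
      split_ifs at h3 <;> omega
    · omega
    · exfalso
      split_ifs at h3' <;> omega
    · have : t = t' := by omega
      rw [this]

end Run7.h180.EMX
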