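import Pool.Agent.Run7.h180.EM.Num
import Pool.Agent.H38.NP.Api

/-!
# Making the red and blue graph simple
-/

set_option autoImplicit false

namespace Run7.h180.EMX

open Finset Pool.Agent.H38.NP

/-- the blue edges with both ends below `n` -/
def blueB (n : ℕ) (E : List (ℕ × ℕ × Bool)) : List (ℕ × ℕ × Bool) :=
  E.filter fun e => decide (e.1 < n) && (decide (e.2.1 < n) && !e.2.2)

theorem mem_blueB {n : ℕ} {E : List (ℕ × ℕ × Bool)} {u v : ℕ} {b : Bool} :
    (u, v, b) ∈ blueB n E ↔ (u, v, false) ∈ E ∧ u < n ∧ v < n ∧ b = false := by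
  unfold blueB
  simp only [List.mem_filter, Bool.and_eq_true, decide_eq_true_eq, Bool.not_eq_true']
  constructor
  · rintro ⟨h1, h2, h3, rfl⟩
    exact ⟨h1, h2, h3, rfl⟩
  · rintro ⟨h1, h2, h3, rfl⟩
    exact ⟨h1, h2, h3, rfl⟩

/-- the colours of a used path -/
def ub : Unit → ℕ → Bool := fun _ t => decide (t = 0)

/-- the colours of an unused path -/
def nb : Unit → ℕ → Bool := fun _ _ => false

/-- every red edge is replaced by a path with three edges -/
def smp (n : ℕ) (E : List (ℕ × ℕ × Bool)) : List (ℕ × ℕ × Bool) :=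
  big n 1 ub nb (blueB n E) (red n E)

theorem exact_iffB {n k : ℕ} {E : List (ℕ × ℕ × Bool)} :
    HasExact n k E ↔ ∃ p c o, Src n (blueB n E) (red n E) p c o ∧ cnt n o = k := by
  rw [exact_iff]
  constructor
  · rintro ⟨p, c, o, h, hk⟩
    refine ⟨p, fun _ => false, o, ⟨h.lt, h.inj, fun i hi ho => ?_, h.lg⟩, hk⟩
    have := mem_blue.1 (h.sh i hi ho)
    exact mem_blueB.2 ⟨this.1, this.2.1, this.2.2.1, rfl⟩
  · rintro ⟨p, c, o, h, hk⟩
    refine ⟨p, fun _ => 9, o, ⟨h.lt, h.inj, fun i hi ho => ?_, h.lg⟩, hk⟩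
    have := mem_blueB.1 (h.sh i hi ho)
    exact mem_blue.2 ⟨this.1, this.2.1, this.2.2.1, rfl⟩

theorem cntB {n : ℕ} {E : List (ℕ × ℕ × Bool)} {p : ℕ → ℕ} {c c' : ℕ → Bool} {o : ℕ → Option ℕ}
    (h : Src n (blueB n E) (red n E) p c o) (hl : Lab n 1 ub nb (red n E) c o c') :
    ((range (n + 1 * (red n E).length)).filter fun i => c' i = true).card = cnt n o := by
  classical
  rw [Finset.card_filter, sum_blocks (fun i => if c' i = true then 1 else 0)]
  have e1 : ∑ i ∈ range n, (if c' i = true then 1 else 0) = cnt n o := by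
    unfold cnt
    rw [Finset.card_filter]
    refine Finset.sum_congr rfl fun i hi => ?_
    rw [mem_range] at hi
    rcases ho : o i with _ | j
    · rw [hl.sh i hi ho, (mem_blueB.1 (h.sh i hi ho)).2.2.2]
      simp
    · obtain ⟨hj, -⟩ := h.lg i hi j ho
      rw [hl.lg i hi j ho hj]
      simp [ub]
  have e2 : ∑ j ∈ range (red n E).length, ∑ t ∈ range 1,
      (if c' (n + 1 * j + t) = true then 1 else 0) = 0 := by
    refine Finset.sum_eq_zero fun j hj => Finset.sum_eq_zero fun t ht => ?_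
    rw [mem_range] at hj ht
    by_cases hu : ∃ i < n, o i = some j
    · rw [hl.used j hj hu t ht]
      simp [ub]
    · rw [hl.unused j hj hu t ht]
      simp [nb]
  rw [e1, e2, add_zero]

theorem smp_iff {n k : ℕ} {E : List (ℕ × ℕ × Bool)} :
    HasExact n k E ↔ HasExact (n + 1 * (red n E).length) k (smp n E) := by
  rw [exact_iffB]
  constructor
  · rintro ⟨p, c, o, h, hk⟩
    obtain ⟨p', c', hpm, hl⟩ := forward (S := 1) (us := ub) (ns := nb) le_rfl h
    exact ⟨p', c', hpm, by rw [cntB h hl, hk]⟩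
  · rintro ⟨p', c', hpm, hk⟩
    obtain ⟨p, o, h, hl⟩ := backward (S := 1) (us := ub) (ns := nb) le_rfl
      (fun e he => by
        obtain ⟨u, v, w⟩ := e
        exact ⟨(mem_blueB.1 he).2.1, (mem_blueB.1 he).2.2.1⟩)
      (fun e he => by
        obtain ⟨u, v, w⟩ := e
        exact (mem_red.1 he).2) hpm
    exact ⟨p, c', o, h, by rw [← cntB h hl, hk]⟩

theorem smp_lt {n : ℕ} {E : List (ℕ × ℕ × Bool)} :
    ∀ e ∈ smp n E, e.1 < n + 1 * (red n E).length ∧ e.2.1 < n + 1 * (red n E).length := by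
  rintro ⟨x, y, l⟩ he
  unfold smp at he
  have hlj : ∀ j, ∀ hj : j < (red n E).length, (red n E)[j].1 < n ∧ (red n E)[j].2.1 < n :=
    fun j hj => (mem_red.1 (show ((red n E)[j].1, (red n E)[j].2.1, ()) ∈ red n E from
      List.getElem_mem hj)).2
  rcases mem_big.1 he with h | ⟨j, hj, h⟩
  · have := (mem_blueB.1 h).2
    exact ⟨by simp only; omega, by simp only; omega⟩
  · have h1 := hlj j hj
    rcases h with ⟨h2, h3, -⟩ | ⟨t, ht, h2, h3, -⟩ | ⟨t, ht, h2, h3, -⟩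
    · simp only
      omega
    · simp only
      split_ifs at h3 <;> omega
    · simp only
      omega

theorem smp_simple {n : ℕ} {E : List (ℕ × ℕ × Bool)} :
    ∀ e ∈ smp n E, ∀ e' ∈ smp n E, e.1 = e'.1 → e.2.1 = e'.2.1 → e = e' := by
  rintro ⟨x, y, l⟩ he ⟨x', y', l'⟩ he' hx hy
  simp only at hx hy
  subst hx
  subst hy
  suffices l = l' by rw [this]
  unfold smp at he he'
  have hlj : ∀ j, ∀ hj : j < (red n E).length, (red n E)[j].1 < n ∧ (red n E)[j].2.1 < n :=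
    fun j hj => (mem_red.1 (show ((red n E)[j].1, (red n E)[j].2.1, ()) ∈ red n E from
      List.getElem_mem hj)).2
  rcases mem_big.1 he with h | ⟨j, hj, h⟩ <;> rcases mem_big.1 he' with h' | ⟨j', hj', h'⟩
  · rw [(mem_blueB.1 h).2.2.2, (mem_blueB.1 h').2.2.2]
  · have h0 := (mem_blueB.1 h).2
    have h1 := hlj j' hj'
    rcases h' with ⟨h2, h3, -⟩ | ⟨t, ht, h2, h3, -⟩ | ⟨t, ht, h2, h3, -⟩ <;> omega
  · have h0 := (mem_blueB.1 h').2
    have h1 := hlj j hj
    rcases h with ⟨h2, h3, -⟩ | ⟨t, ht, h2, h3, -⟩ | ⟨t, ht, h2, h3, -⟩ <;> omega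
  · have h1 := hlj j hj
    have h1' := hlj j' hj'
    rcases h with ⟨h2, h3, rfl⟩ | ⟨t, ht, h2, h3, rfl⟩ | ⟨t, ht, h2, h3, rfl⟩ <;>
      rcases h' with ⟨h2', h3', rfl⟩ | ⟨t', ht', h2', h3', rfl⟩ | ⟨t', ht', h2', h3', rfl⟩
    · rfl
    · exfalso
      omega
    · omega
    · exfalso
      omega
    · obtain rfl : t = t' := by omega
      rfl
    · exfalso
      split_ifs at h3 <;> omega
    · omega
    · exfalso
      split_ifs at h3' <;> omega
    · rfl

/-- the simple instance -/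
def simpI (a : ℕ × ℕ × List (ℕ × ℕ × Bool)) : ℕ × ℕ × List (ℕ × ℕ × Bool) :=
  (a.1 + 1 * (red a.1 a.2.2).length, a.2.1, smp a.1 a.2.2)

theorem pt_simpI : PT simpI := by
  unfold simpI smp big
  have h1 : PT fun a : ℕ × ℕ × List (ℕ × ℕ × Bool) => red a.1 a.2.2 := by
    unfold red
    fun_prop
  have h2 : PT fun a : ℕ × ℕ × List (ℕ × ℕ × Bool) => blueB a.1 a.2.2 := by
    unfold blueB
    fun_prop
  have h3 : PT fun q : ℕ × (ℕ × ℕ × Unit) => gad 1 ub nb q.1 q.2 := by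
    unfold gad ub nb
    fun_prop
  have h4 : PT fun q : (ℕ × ℕ × List (ℕ × ℕ × Bool)) × ((ℕ × ℕ × Unit) × ℕ) =>
      gad 1 ub nb (q.1.1 + 1 * q.2.2) q.2.1 :=
    h3.comp (g := fun q : (ℕ × ℕ × List (ℕ × ℕ × Bool)) × ((ℕ × ℕ × Unit) × ℕ) =>
      (q.1.1 + 1 * q.2.2, q.2.1)) (by fun_prop)
  fun_prop

end Run7.h180.EMX
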